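import Mathlib

namespace Pool.Agent.H.MP_537c9d_co

open Finset

structure W (c k : ℕ) (ρ : ℕ → ℕ) : Prop where
  rng : ∀ t, c < t → t ≤ c + k → 1 ≤ ρ t ∧ ρ t ≤ k
  inj : ∀ s t, c < s → s ≤ c + k → c < t → t ≤ c + k → ρ s = ρ t → s = t
  dvd : ∀ m s t, c < s → s ≤ c + k → c < t → t ≤ c + k → m ∣ ρ s → s ≡ t [MOD m] → m ∣ ρ t

theorem surj_of {c k : ℕ} {ρ : ℕ → ℕ} (h1 : ∀ t, c < t → t ≤ c + k → 1 ≤ ρ t ∧ ρ t ≤ k)
    (h2 : ∀ s t, c < s → s ≤ c + k → c < t → t ≤ c + k → ρ s = ρ t → s = t) {v : ℕ} (a : 1 ≤ v)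
    (b : v ≤ k) : ∃ t, c < t ∧ t ≤ c + k ∧ ρ t = v := by
  have := Finset.surjOn_of_injOn_of_card_le (s := Ioc c (c + k)) (t := Icc 1 k) ρ
    (fun t ht => by
      have := mem_Ioc.1 (mem_coe.1 ht)
      exact mem_coe.2 (mem_Icc.2 (h1 t this.1 this.2)))
    (fun s hs t ht e => by
      have hs := mem_Ioc.1 (mem_coe.1 hs)
      have ht := mem_Ioc.1 (mem_coe.1 ht)
      exact h2 s t hs.1 hs.2 ht.1 ht.2 e) (by simp)
  obtain ⟨t, ht, e⟩ := this (mem_coe.2 (mem_Icc.2 ⟨a, b⟩))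
  have ht := mem_Ioc.1 (mem_coe.1 ht)
  exact ⟨t, ht.1, ht.2, e⟩

theorem W.surj {c k : ℕ} {ρ : ℕ → ℕ} (h : W c k ρ) {v : ℕ} (a : 1 ≤ v) (b : v ≤ k) :
    ∃ t, c < t ∧ t ≤ c + k ∧ ρ t = v := surj_of h.rng h.inj a b

theorem W.sh {c k : ℕ} {ρ : ℕ → ℕ} (h : W c k ρ) (d : ℕ) : W d k fun t => ρ (t + c - d) where
  rng t _ _ := h.rng _ (by omega) (by omega)
  inj s t _ _ _ _ e := by have := h.inj _ _ (by omega) (by omega) (by omega) (by omega) e; omega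
  dvd m s t _ _ _ _ a b := h.dvd m _ _ (by omega) (by omega) (by omega) (by omega) a <|
    Nat.ModEq.add_right_cancel' d (by
      rw [Nat.sub_add_cancel (by omega), Nat.sub_add_cancel (by omega)]; exact b.add_right c)

theorem W.rev {c k : ℕ} {ρ : ℕ → ℕ} (h : W c k ρ) (d : ℕ) :
    W d k fun t => ρ (c + k + 1 + d - t) where
  rng t _ _ := h.rng _ (by omega) (by omega)
  inj s t _ _ _ _ e := by have := h.inj _ _ (by omega) (by omega) (by omega) (by omega) e; omega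
  dvd m s t _ _ _ _ a b := h.dvd m _ _ (by omega) (by omega) (by omega) (by omega) a <|
    Nat.ModEq.add_right_cancel b (by
      rw [Nat.sub_add_cancel (by omega), Nat.sub_add_cancel (by omega)])

theorem W.cls {c k : ℕ} {ρ : ℕ → ℕ} (h : W c k ρ) {r : ℕ} (r1 : 1 ≤ r) (rk : r ≤ k) :
    ∃ a, ∃ τ : ℕ → ℕ, c < a ∧ a ≤ c + r ∧ c + k < a + k / r * r ∧ W 0 (k / r) τ ∧
      (∀ u, u < k / r → a + u * r ≤ c + k ∧ ρ (a + u * r) = r * τ (u + 1)) ∧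
      ∀ t, c < t → t ≤ c + k → (r ∣ ρ t ↔ a ≡ t [MOD r]) := by
  obtain ⟨s, s1, s2, hs⟩ := h.surj r1 rk
  set a := c + 1 + (s - (c + 1)) % r with ha
  have a0 : (s - (c + 1)) % r < r := Nat.mod_lt _ r1
  have as : s ≡ a [MOD r] := by
    rw [ha]; conv_lhs => rw [show s = c + 1 + (s - (c + 1)) by omega]
    exact (Nat.mod_modEq _ _).symm.add_left _
  have nr : k / r * r ≤ k := Nat.div_mul_le_self k r
  have D : ∀ t, c < t → t ≤ c + k → a ≡ t [MOD r] → r ∣ ρ t := fun t t1 t2 e =>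
    h.dvd r s t s1 s2 t1 t2 (hs ▸ dvd_rfl) (as.trans e)
  let τ : ℕ → ℕ := fun u => ρ (a + (u - 1) * r) / r
  have E : ∀ u, a + u * r ≤ c + k → ρ (a + u * r) = r * τ (u + 1) := fun u hu =>
    (Nat.mul_div_cancel' (D _ (by omega) hu (by simp [Nat.ModEq]))).symm
  have R : ∀ u, a + u * r ≤ c + k → 1 ≤ τ (u + 1) ∧ τ (u + 1) ≤ k / r := fun u hu => by
    have := h.rng _ (by omega) hu
    rw [E u hu] at this
    exact ⟨Nat.pos_of_mul_pos_left this.1, (Nat.le_div_iff_mul_le r1).2 (by linarith)⟩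
  have I : ∀ u v, a + u * r ≤ c + k → a + v * r ≤ c + k → τ (u + 1) = τ (v + 1) → u = v :=
    fun u v hu hv e => by
      have := h.inj _ _ (by omega) hu (by omega) hv (by rw [E u hu, E v hv, e])
      exact Nat.eq_of_mul_eq_mul_right r1 (by omega)
  have L : ∀ u, u < k / r → a + u * r ≤ c + k := fun u hu => by
    have := Nat.mul_le_mul_right r (Nat.succ_le_of_lt hu)
    rw [Nat.succ_mul] at this; omega
  have R' : ∀ t, 0 < t → t ≤ 0 + k / r → 1 ≤ τ t ∧ τ t ≤ k / r := fun t t1 t2 => by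
    obtain ⟨u, rfl⟩ := Nat.exists_eq_add_one_of_ne_zero t1.ne'
    exact R u (L u (by omega))
  have I' : ∀ s t, 0 < s → s ≤ 0 + k / r → 0 < t → t ≤ 0 + k / r → τ s = τ t → s = t :=
    fun s t s1 s2 t1 t2 e => by
      obtain ⟨u, rfl⟩ := Nat.exists_eq_add_one_of_ne_zero s1.ne'
      obtain ⟨v, rfl⟩ := Nat.exists_eq_add_one_of_ne_zero t1.ne'
      rw [I u v (L u (by omega)) (L v (by omega)) e]
  refine ⟨a, τ, by omega, by omega, ?_, ⟨R', I', fun m s t s1 s2 t1 t2 d e => ?_⟩,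
    fun u hu => ⟨L u hu, E u (L u hu)⟩, fun t t1 t2 => ⟨fun d => ?_, D t t1 t2⟩⟩
  · by_contra hc
    have hc := not_lt.1 hc
    obtain ⟨t, t1, t2, e⟩ := surj_of R' I' (R _ hc).1 (R _ hc).2
    obtain ⟨u, rfl⟩ := Nat.exists_eq_add_one_of_ne_zero t1.ne'
    have := I _ _ (L u (by omega)) hc e
    omega
  · obtain ⟨u, rfl⟩ := Nat.exists_eq_add_one_of_ne_zero s1.ne'
    obtain ⟨v, rfl⟩ := Nat.exists_eq_add_one_of_ne_zero t1.ne'
    have hu := L u (by omega)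
    have hv := L v (by omega)
    have := h.dvd (r * m) _ _ (by omega) hu (by omega) hv
      (by rw [E u hu]; exact Nat.mul_dvd_mul_left r d) (Nat.ModEq.add_left a (by
        rw [mul_comm r]; exact (Nat.ModEq.add_right_cancel' 1 e).mul_right' r))
    rw [E v hv] at this
    exact Nat.dvd_of_mul_dvd_mul_left r1 this
  · obtain ⟨j, hj⟩ := d
    have := h.rng t t1 t2
    rw [hj] at this
    obtain ⟨s, s1, s2, e⟩ := surj_of R' I' (v := j) (Nat.pos_of_mul_pos_left this.1)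
      ((Nat.le_div_iff_mul_le r1).2 (by linarith))
    obtain ⟨u, rfl⟩ := Nat.exists_eq_add_one_of_ne_zero s1.ne'
    have hu := L u (by omega)
    rw [← h.inj _ _ (by omega) hu t1 t2 (by rw [E u hu, e, hj])]
    simp [Nat.ModEq]

def Al (c k : ℕ) (ρ : ℕ → ℕ) (m : ℕ) : Prop := ∀ t, c < t → t ≤ c + k → (m ∣ ρ t ↔ m ∣ t)

theorem W.al {c k : ℕ} {ρ : ℕ → ℕ} (h : W c k ρ) {m t : ℕ} (t1 : c < t) (t2 : t ≤ c + k)
    (d1 : m ∣ ρ t) (d2 : m ∣ t) : Al c k ρ m := by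
  have := h.rng t t1 t2
  obtain ⟨a, -, -, -, -, -, -, H⟩ := h.cls (Nat.pos_of_dvd_of_pos d1 this.1)
    ((Nat.le_of_dvd this.1 d1).trans this.2)
  intro s s1 s2
  have e : a ≡ 0 [MOD m] := ((H t t1 t2).1 d1).trans (Nat.modEq_zero_iff_dvd.2 d2)
  rw [H s s1 s2, ← Nat.modEq_zero_iff_dvd]
  exact ⟨fun x => x.symm.trans e, fun x => e.trans x.symm⟩

theorem Al.mul {c k : ℕ} {ρ : ℕ → ℕ} {a b : ℕ} (ha : Al c k ρ a) (hb : Al c k ρ b)
    (h : a.Coprime b) : Al c k ρ (a * b) := fun t t1 t2 =>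
  ⟨fun d => h.mul_dvd_of_dvd_of_dvd ((ha t t1 t2).1 ((dvd_mul_right _ _).trans d))
    ((hb t t1 t2).1 ((dvd_mul_left _ _).trans d)),
   fun d => h.mul_dvd_of_dvd_of_dvd ((ha t t1 t2).2 ((dvd_mul_right _ _).trans d))
    ((hb t t1 t2).2 ((dvd_mul_left _ _).trans d))⟩

theorem W.ext_dvd {c k : ℕ} {ρ : ℕ → ℕ} (h : W c k ρ) {m t : ℕ} (ha : Al c k ρ m) (m1 : 1 ≤ m)
    (mk : m ≤ k) (t1 : k < t) (t2 : t ≤ c + k) (d : m ∣ t) : m ≤ c := by
  obtain ⟨a, -, a1, a2, a3, -, -, H⟩ := h.cls m1 mk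
  obtain ⟨b, rfl⟩ := (ha a a1 (by omega)).1 ((H a a1 (by omega)).2 rfl)
  obtain ⟨s, rfl⟩ := d
  have : k / m < s := by
    by_contra hc
    have := Nat.mul_le_mul_left m (not_lt.1 hc)
    have := Nat.mul_div_le k m
    have : k < m * (k / m + 1) := Nat.lt_mul_div_succ k m1
    nlinarith
  have : 1 < b := by
    by_contra hc
    have : m * b ≤ m := by nlinarith
    nlinarith
  nlinarith

theorem W.first {c k : ℕ} {ρ : ℕ → ℕ} (h : W c k ρ) (hk : 1 ≤ k) : ρ (c + 1) ∣ k := by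
  have := h.rng (c + 1) (by omega) (by omega)
  obtain ⟨a, -, a1, a2, a3, -, -, H⟩ := h.cls this.1 this.2
  have e := (H (c + 1) (by omega) (by omega)).1 dvd_rfl
  have : a = c + 1 := by
    have d := (Nat.modEq_iff_dvd' (by omega)).1 e.symm
    have := Nat.eq_zero_of_dvd_of_lt d (by omega)
    omega
  have := Nat.div_mul_le_self k (ρ (c + 1))
  exact Dvd.intro_left (k / ρ (c + 1)) (by omega)

theorem W.last {c k : ℕ} {ρ : ℕ → ℕ} (h : W c k ρ) (hk : 1 ≤ k) : ρ (c + k) ∣ k := by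
  have := (h.rev 0).first hk
  simpa using this

end Pool.Agent.H.MP_537c9d_co
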