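import Pool.Agent.H.MP_537c9d_co.A

namespace Pool.Agent.H.MP_537c9d_co

def ALL (c k : ℕ) (ρ : ℕ → ℕ) : Prop := ∀ m, 1 ≤ m → 3 * m ≤ k → Al c k ρ m

theorem cop {m P : ℕ} (hP : P.Prime) (m1 : 1 ≤ m) (h : m < P) : m.Coprime P :=
  (Nat.coprime_of_lt_prime (by omega) h hP).symm

theorem W.ext {c k : ℕ} {ρ : ℕ → ℕ} (h : W c k ρ) (hc : c ≤ 5) (hk : 150 ≤ k)
    (H : ∀ m, 1 ≤ m → 6 * m ≤ k → Al c k ρ m) : ALL c k ρ := by
  intro r
  induction r using Nat.strong_induction_on with
  | _ r ih =>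
  intro r1 r3
  by_cases h6 : 6 * r ≤ k
  · exact H r r1 h6
  have pp := Nat.minFac_prime (by omega : r ≠ 1)
  obtain ⟨e, b, nb, hr⟩ := Nat.exists_eq_pow_mul_and_not_dvd (by omega : r ≠ 0) _ pp.ne_one
  have pr := Nat.minFac_dvd r
  generalize r.minFac = p at *
  have e0 : e ≠ 0 := by rintro rfl; rw [hr] at pr; simp at pr; exact nb pr
  have b0 : 1 ≤ b := by rcases b with _ | b; simp at nb; omega
  have pe : 2 ≤ p ^ e := pp.two_le.trans (Nat.le_self_pow e0 p)
  rcases b0.eq_or_lt with rfl | b1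
  swap
  · have x : p ^ e < r := by rw [hr]; nlinarith
    have y : b < r := by rw [hr]; nlinarith
    rw [hr]
    exact (ih _ x (by omega) (by omega)).mul (ih _ y b0 (by omega))
      (Nat.Coprime.pow_left _ (pp.coprime_iff_not_dvd.2 nb))
  rw [mul_one] at hr
  by_contra na
  obtain ⟨a, τ, a1, a2, a3, w, E, -⟩ := h.cls r1 (by omega)
  have n3 : 3 ≤ k / r := (Nat.le_div_iff_mul_le r1).2 r3
  have n5 : k / r < 6 := (Nat.div_lt_iff_lt_mul r1).2 (by omega)
  generalize k / r = n at *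
  have K : ∀ u < n, ∀ m, 1 ≤ m → m < r → (m ∣ r * τ (u + 1) ↔ m ∣ a + u * r) := fun u hu m m1 mr => by
    rw [← (E u hu).2]; exact ih m mr m1 (by omega) _ (by omega) (E u hu).1
  have NA : ∀ u < n, ¬r ∣ a + u * r := fun u hu d =>
    na (h.al (by omega) (E u hu).1 ((E u hu).2 ▸ dvd_mul_right _ _) d)
  obtain ⟨e, rfl⟩ := Nat.exists_eq_add_one_of_ne_zero e0
  rcases e with _ | e
  · obtain rfl : r = p := by simpa using hr
    have G : ∀ j, 2 ≤ j → j ≤ n → ∃ u < n, a + u * r = j ∨ j * (r + 2) ≤ a + u * r := by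
      intro j j1 j2
      obtain ⟨u, u1, u2, hu⟩ := w.surj (v := j) (by omega) j2
      obtain ⟨u, rfl⟩ := Nat.exists_eq_add_one_of_ne_zero u1.ne'
      have un : u < n := by omega
      refine ⟨u, un, ?_⟩
      have k1 := K u un
      have k2 := NA u un
      rw [hu] at k1
      obtain ⟨x, hx⟩ := (k1 j (by omega) (by omega)).1 (dvd_mul_left _ _)
      have k3 : ∀ m, 1 ≤ m → m < r → m ∣ j * x → m ≤ j := fun m m1 mr d =>
        Nat.le_of_dvd (by omega) ((cop pp m1 mr).dvd_of_dvd_mul_left ((k1 m m1 mr).2 (hx ▸ d)))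
      rw [hx] at k2 ⊢
      have x0 : 1 ≤ x := by rcases x with _ | x; simp at k2; omega
      rcases lt_trichotomy x r with l | rfl | l
      · have := k3 x x0 l (dvd_mul_left _ _)
        have := k3 (j * x) (by nlinarith) (by nlinarith) dvd_rfl
        left; nlinarith
      · exact absurd (dvd_mul_left _ _) k2
      · rcases (Nat.succ_le_of_lt l).eq_or_lt with rfl | l
        · have := k3 (j * 2) (by omega) (by omega) (Nat.mul_dvd_mul_left j (by
            have := pp.eq_two_or_odd; omega))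
          omega
        · right; exact Nat.mul_le_mul_left j l
    obtain ⟨n, rfl⟩ : ∃ m, n = m + 1 := ⟨n - 1, by omega⟩
    obtain ⟨u, u1, g1⟩ := G (n + 1) (by omega) le_rfl
    obtain ⟨v, v1, g2⟩ := G n (by omega) (by omega)
    have := Nat.mul_le_mul_right r (Nat.le_of_lt_succ u1)
    have := Nat.mul_le_mul_right r (Nat.le_of_lt_succ v1)
    have an : a = n + 1 := by
      rcases g1 with g | g
      · rcases u with _ | u
        · omega
        · nlinarith
      · nlinarith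
    rcases g2 with g | g
    · omega
    · nlinarith
  · rw [pow_succ'] at hr
    have q1 : p ≤ p ^ (e + 1) := Nat.le_self_pow (by omega) p
    have cp : ∀ m, ¬p ∣ m → m.Coprime r := fun m d => by
      rw [hr, ← pow_succ']; exact Nat.Coprime.pow_right _ (pp.coprime_iff_not_dvd.2 d).symm
    generalize p ^ (e + 1) = q at *
    have p2 := pp.two_le
    have q6 : 6 ≤ q := by nlinarith
    obtain ⟨b, rfl⟩ := (K 0 (by omega) q (by omega) (by nlinarith)).1
      (hr ▸ (dvd_mul_left _ _).mul_right _) |>.trans (by simp : a + 0 * r ∣ a)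
    have nb : ¬p ∣ b := fun d => NA 0 (by omega) (by
      rw [hr, zero_mul, add_zero, mul_comm]; exact Nat.mul_dvd_mul_left q d)
    have bp : b ≤ p := by nlinarith
    have b0 : 1 ≤ b := by rcases b with _ | b; simp at nb; omega
    have G : ∀ u < n, u ≤ 3 → b + u * p ≤ n := fun u un u3 =>
      (Nat.le_of_dvd (w.rng _ (by omega) (by omega)).1
        ((cp _ fun d => nb ((Nat.dvd_add_left (dvd_mul_left _ _)).1 d)).dvd_of_dvd_mul_left
          ((K u un _ (by omega) (by nlinarith)).2 ⟨q, by rw [hr]; ring⟩))).trans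
        (w.rng (u + 1) (by omega) (by omega)).2
    have := G 2 (by omega) (by omega)
    have := G 3 (by omega) (by omega)
    omega

theorem W.ext_prime {c k : ℕ} {ρ : ℕ → ℕ} (h : W c k ρ) (H : ALL c k ρ) (hc : c ≤ 5)
    (hk : 150 ≤ k) {j w : ℕ} (j3 : j ≤ 3) (j1 : 2 ≤ j ∨ w % 2 = 1 ∧ c ≤ 2) (t1 : k < j * w)
    (t2 : j * w ≤ c + k) : w.Prime := by
  have G : ∀ m, 1 ≤ m → 3 * m ≤ k → m ∣ w → m ≤ c := fun m m1 m3 d =>
    h.ext_dvd (H m m1 m3) m1 (by omega) t1 t2 (d.mul_left _)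
  by_contra np
  have w2 : 50 ≤ w := by nlinarith
  have q := Nat.minFac_sq_le_self (by omega) np
  obtain ⟨y, hy⟩ := Nat.minFac_dvd w
  have p2 := (Nat.minFac_prime (by omega : w ≠ 1)).two_le
  generalize w.minFac = x at *
  have j0 : 1 ≤ j := by rcases j with _ | j; simp at t1; omega
  have wk : w ≤ k + 5 := by nlinarith
  have x5 := G x (by omega) (by nlinarith) ⟨y, hy⟩
  have y1 : 1 ≤ y := by rcases y with _ | y; simp at hy; omega; omega
  rcases j1 with j1 | j1
  · have : 2 * y ≤ w := by nlinarith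
    have : 2 * w ≤ j * w := by nlinarith
    have := G y y1 (by omega) ⟨x, by rw [hy, mul_comm]⟩
    nlinarith
  · obtain rfl : x = 2 := by omega
    omega

theorem W.prime_cls {c k : ℕ} {ρ : ℕ → ℕ} (h : W c k ρ) (H : ALL c k ρ) {P t j : ℕ} (hP : P.Prime)
    (P3 : k < 3 * P) (t1 : c < t) (t2 : t ≤ c + k) (e : ρ t = P * j) (m : ℕ) (m1 : 1 ≤ m)
    (m3 : 3 * m ≤ k) : m ∣ t ↔ m ∣ j := by
  rw [← H m m1 m3 t t1 t2, e]
  exact ⟨(cop hP m1 (by omega)).dvd_of_dvd_mul_left, fun d => d.mul_left _⟩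

theorem W.le_two {c k : ℕ} {ρ : ℕ → ℕ} (h : W c k ρ) (H : ALL c k ρ) (hc : c ≤ 5)
    (hk : 150 ≤ k) : c ≤ 2 := by
  by_contra c3
  have hP := h.ext_prime H hc hk (j := 3) (w := k / 3 + 1) le_rfl (by omega) (by omega) (by omega)
  have P3 : ¬3 ∣ k / 3 + 1 := fun d => by
    have := (Nat.prime_dvd_prime_iff_eq Nat.prime_three hP).1 d; omega
  have P2 := hP.eq_two_or_odd
  have b1 : k < 3 * (k / 3 + 1) := by omega
  have b2 : 3 * (k / 3 + 1) ≤ k + 3 := by omega
  generalize k / 3 + 1 = P at *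
  obtain ⟨a, τ, a1, a2, a3, w, E, -⟩ := h.cls (r := P) (by omega) (by omega)
  rw [show k / P = 2 from Nat.div_eq_of_lt_le (by omega) (by omega)] at a3 w E
  have e0 := E 0 (by omega)
  have e1 := E 1 (by omega)
  simp only [zero_mul, add_zero, one_mul, zero_add] at e0 e1
  have k0 := h.prime_cls H hP b1 a1 e0.1 e0.2
  have k1 := h.prime_cls H hP b1 (by omega) e1.1 e1.2
  have r0 := w.rng 1 (by omega) (by omega)
  have r1 := w.rng (1 + 1) (by omega) (by omega)
  have x1 : a % 2 = 1 := by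
    by_contra x
    have := Nat.le_of_dvd r0.1 ((k0 (a / 2) (by omega) (by omega)).1 ⟨2, by omega⟩)
    omega
  have y0 : ¬3 ∣ a := fun d => by have := (k0 3 (by omega) (by omega)).1 d; omega
  have y1 : ¬3 ∣ a + P := fun d => by have := (k1 3 (by omega) (by omega)).1 d; omega
  have y2 : ¬4 ∣ a + P := fun d => by have := (k1 4 (by omega) (by omega)).1 d; omega
  obtain rfl | rfl : a = P + 2 ∨ a = P + 4 := by omega
  · omega
  · rcases (by omega : P % 3 = 1 ∨ P % 3 = 2) with z | z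
    · exact y1 (by omega)
    · exact y0 (by omega)

def A (k : ℕ) (σ : ℕ → ℕ) : Prop :=
  ∃ c ≤ 2, ALL c k (fun t => σ (t + 0 - c)) ∨ ALL c k fun t => σ (0 + k + 1 + c - t)

theorem step {k : ℕ} (hk : 150 ≤ k) (ih : ∀ τ, W 0 (k / 2) τ → A (k / 2) τ) {σ : ℕ → ℕ}
    (h : W 0 k σ) : A k σ := by
  obtain ⟨a, τ, a1, a2, a3, w, E, -⟩ := h.cls (r := 2) (by omega) (by omega)
  obtain ⟨c, c2, H | H⟩ := ih τ w
  · have h' := h.sh (2 - a + 2 * c)
    have := h'.ext (by omega) hk fun m m1 m6 => by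
      obtain ⟨u, u1, u2, hu⟩ := w.surj m1 (by omega)
      have d := (H m m1 (by omega) (u + c) (by omega) (by omega)).1 (by simp [hu])
      have e := E (u - 1) (by omega)
      refine h'.al (t := 2 * (u + c)) (by omega) (by omega) ?_ (d.mul_left _)
      rw [show 2 * (u + c) + 0 - (2 - a + 2 * c) = a + (u - 1) * 2 by omega, e.2,
        Nat.sub_add_cancel u1, hu]
      exact dvd_mul_left _ _
    exact ⟨_, h'.le_two this (by omega) hk, .inl this⟩
  · have h' := h.rev (2 * (k / 2) + 2 * c + a - k - 1)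
    have := h'.ext (by omega) hk fun m m1 m6 => by
      obtain ⟨u, u1, u2, hu⟩ := w.surj m1 (by omega)
      have d := (H m m1 (by omega) (k / 2 + 1 + c - u) (by omega) (by omega)).1 (by
        simp only []
        rw [show 0 + k / 2 + 1 + c - (k / 2 + 1 + c - u) = u by omega, hu])
      have e := E (u - 1) (by omega)
      refine h'.al (t := 2 * (k / 2 + 1 + c - u)) (by omega) (by omega) ?_ (d.mul_left _)
      rw [show 0 + k + 1 + (2 * (k / 2) + 2 * c + a - k - 1) - 2 * (k / 2 + 1 + c - u) =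
        a + (u - 1) * 2 by omega, e.2, Nat.sub_add_cancel u1, hu]
      exact dvd_mul_left _ _
    exact ⟨_, h'.le_two this (by omega) hk, .inr this⟩

theorem W.half {c k : ℕ} {ρ : ℕ → ℕ} (h : W c k ρ) (H : ALL c k ρ) (hc : c ≤ 2) (hk : 150 ≤ k)
    {P : ℕ} (hP : P.Prime) (P2 : 2 * P ≤ k) (P3 : k < 3 * P) : ¬P ∣ ρ (P + 1) := by
  rintro ⟨j, e⟩
  have r := h.rng (P + 1) (by omega) (by omega)
  have := hP.eq_two_or_odd
  have d := (h.prime_cls H hP P3 (by omega) (by omega) e ((P + 1) / 2) (by omega) (by omega)).1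
    ⟨2, by omega⟩
  rw [e] at r
  have := Nat.le_of_dvd (Nat.pos_of_mul_pos_left r.1) d
  have : j < 3 := by nlinarith
  omega

theorem W.two_odd {k : ℕ} {ρ : ℕ → ℕ} (h : W 2 k ρ) (H : ALL 2 k ρ) (hk : 150 ≤ k) :
    k % 2 = 1 := by
  by_contra x
  have hP := h.ext_prime H (by omega) hk (j := 2) (w := k / 2 + 1) (by omega) (by omega)
    (by omega) (by omega)
  have d3 := ((H 3 (by omega) (by omega) 3 (by omega) (by omega)).2 dvd_rfl).trans
    (h.first (by omega))
  have P2 := hP.eq_two_or_odd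
  obtain ⟨a, τ, a1, a2, a3, w, E, -⟩ := h.cls (r := k / 2 + 1) (by omega) (by omega)
  rw [show k / (k / 2 + 1) = 1 from Nat.div_eq_of_lt_le (by omega) (by omega)] at a3 w E
  have e0 := E 0 (by omega)
  simp only [zero_mul, add_zero, zero_add] at e0
  have k0 := h.prime_cls H hP (by omega) a1 e0.1 e0.2
  have r0 := w.rng 1 (by omega) (by omega)
  have := k0 2 (by omega) (by omega)
  have := k0 3 (by omega) (by omega)
  omega

theorem W.ends {c k : ℕ} {ρ : ℕ → ℕ} (h : W c k ρ) (H : ALL c k ρ) (hc : c ≤ 2) (hk : 150 ≤ k) :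
    ρ (c + 1) = 1 ∨ ρ (c + k) = 1 := by
  by_contra hn
  obtain ⟨n1, n2⟩ := not_or.1 hn
  obtain ⟨p, pp, d1⟩ := Nat.exists_prime_and_dvd n1
  obtain ⟨q, qq, d2⟩ := Nat.exists_prime_and_dvd n2
  have pk := d1.trans (h.first (by omega))
  have qk := d2.trans (h.last (by omega))
  have p2 := pp.two_le
  have q2 := qq.two_le
  have ne : p ≠ q := by
    rintro rfl
    obtain ⟨a, -, -, -, -, -, -, E⟩ := h.cls (r := p) (by omega) (Nat.le_of_dvd (by omega) pk)
    have e := ((E _ (by omega) (by omega)).1 d1).symm.trans ((E _ (by omega) (by omega)).1 d2)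
    have := (Nat.ModEq.add_left_cancel' c e).trans (Nat.modEq_zero_iff_dvd.2 pk)
    exact pp.one_lt.ne' (Nat.dvd_one.1 (Nat.modEq_zero_iff_dvd.1 this))
  have pq := Nat.le_of_dvd (by omega)
    (((Nat.coprime_primes pp qq).2 ne).mul_dvd_of_dvd_of_dvd pk qk)
  have F : ∀ x, x ∣ k → 2 * x ≤ k → k < 3 * x → k = 2 * x := by
    rintro x ⟨j, rfl⟩ a b
    have : j < 3 := by nlinarith
    have : 2 ≤ j := by nlinarith
    obtain rfl : j = 2 := by omega
    ring
  have hq : 3 * q ≤ k → q ∣ c := fun x =>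
    (Nat.dvd_add_left qk).1 ((H q (by omega) x _ (by omega) le_rfl).1 d2)
  interval_cases c
  · by_cases x : 3 * p ≤ k
    · have := Nat.le_of_dvd (by omega) ((H p (by omega) x _ (by omega) (by omega)).1 d1)
      omega
    · exact h.half H hc hk pp (by nlinarith) (by omega)
        (h.dvd p 1 _ (by omega) (by omega) (by omega) (by nlinarith) d1 (by simp [Nat.ModEq]))
  · by_cases x : 3 * q ≤ k
    · have := Nat.le_of_dvd (by omega) (hq x)
      omega
    · have e := F q qk (by nlinarith) (by omega)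
      exact h.half H hc hk qq (by omega) (by omega)
        (h.dvd q _ _ (by omega) le_rfl (by omega) (by omega) d2 (by
          rw [show 1 + k = q + 1 + q by omega]; simp [Nat.ModEq]))
  · have := h.two_odd H hk
    by_cases x : 3 * q ≤ k
    · obtain rfl := (Nat.prime_dvd_prime_iff_eq qq Nat.prime_two).1 (hq x)
      omega
    · have e := F q qk (by nlinarith) (by omega)
      omega

end Pool.Agent.H.MP_537c9d_co
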