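import Pool.Agent.H.MP_537c9d_co.B

namespace Pool.Agent.H.MP_537c9d_co

def Lc : ℕ → ℕ
  | 0 => 1
  | y + 1 => Nat.lcm (Lc y) (y + 1)

theorem Lc_pos : ∀ y, 0 < Lc y
  | 0 => Nat.one_pos
  | y + 1 => Nat.lcm_pos (Lc_pos y) y.succ_pos

theorem dvd_Lc {m : ℕ} (m1 : 1 ≤ m) : ∀ {y}, m ≤ y → m ∣ Lc y
  | 0, h => by omega
  | y + 1, h => by
    rcases h.eq_or_lt with rfl | h
    · exact Nat.dvd_lcm_right _ _
    · exact (dvd_Lc m1 (Nat.le_of_lt_succ h)).trans (Nat.dvd_lcm_left _ _)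

theorem pp_le {p j : ℕ} (hp : p.Prime) : ∀ {y}, p ^ j ∣ Lc y → j = 0 ∨ p ^ j ≤ y
  | 0, h => .inl (by
      rcases (Nat.pow_eq_one.1 (Nat.dvd_one.1 h)) with h | h
      · exact absurd h hp.ne_one
      · exact h)
  | y + 1, h => by
    rw [Lc, hp.pow_dvd_iff_le_factorization (Nat.lcm_pos (Lc_pos y) y.succ_pos).ne',
      Nat.factorization_lcm (Lc_pos y).ne' y.succ_ne_zero, Finsupp.sup_apply, le_sup_iff,
      ← hp.pow_dvd_iff_le_factorization (Lc_pos y).ne',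
      ← hp.pow_dvd_iff_le_factorization y.succ_ne_zero] at h
    rcases h with h | h
    · exact (pp_le hp h).imp_right fun x => x.trans y.le_succ
    · exact .inr (Nat.le_of_dvd y.succ_pos h)

def Inv (k : ℕ) (σ : ℕ → ℕ) (N y : ℕ) : Prop :=
  ∀ m, 1 ≤ m → m ≤ y → ∀ i, 0 < i → i ≤ k → (m ∣ σ i ↔ m ∣ N + i)

theorem Inv.iff {k N y d i : ℕ} {σ : ℕ → ℕ} (h : Inv k σ N y) (hd : d ∣ Lc y) (i1 : 0 < i)
    (i2 : i ≤ k) : d ∣ σ i ↔ d ∣ N + i := by
  rw [Nat.dvd_iff_prime_pow_dvd_dvd, Nat.dvd_iff_prime_pow_dvd_dvd (N + i)]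
  refine forall₂_congr fun p j => forall₂_congr fun pp x => ?_
  rcases pp_le pp (x.trans hd) with rfl | l
  · simp
  · exact h _ (Nat.pow_pos pp.pos) l i i1 i2

theorem Inv.val {k N i : ℕ} {σ : ℕ → ℕ} (w : W 0 k σ) (h : Inv k σ N k) (i1 : 0 < i)
    (i2 : i ≤ k) : σ i = Nat.gcd (N + i) (Lc k) := by
  have r := w.rng i i1 (by omega)
  exact Nat.dvd_antisymm (Nat.dvd_gcd ((h _ r.1 r.2 i i1 i2).1 dvd_rfl) (dvd_Lc r.1 r.2))
    ((h.iff (Nat.gcd_dvd_right _ _) i1 i2).2 (Nat.gcd_dvd_left _ _))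

noncomputable def fN {α : Type} (n : ℕ) (k : ℕ → α) : α :=
  Nat.rec (motive := fun _ => α) (k 0) (fun m _ => k m.succ) n

theorem fN_eq {α : Type} (n : ℕ) (k : ℕ → α) : fN n k = k n := by cases n <;> rfl

noncomputable def allLt (p : ℕ → Bool) (n : ℕ) : Bool :=
  Nat.rec (motive := fun _ => Bool) true
    (fun n ih => and (p n) ih) n

theorem allLt_iff (p : ℕ → Bool) : ∀ n, allLt p n = true ↔ ∀ i < n, p i = true
  | 0 => by simp [allLt]
  | n + 1 => by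
    rw [Nat.forall_lt_succ_right, ← allLt_iff p n]
    change and (p n) (allLt p n) = true ↔ _
    cases p n <;> simp

noncomputable def ok (k r N L : ℕ) : Bool := Bool.rec (motive := fun _ => Bool)
  (fN (Nat.add N (Nat.sub r (Nat.mod N r))) fun a =>
    allLt (fun u => Nat.ble (Nat.gcd (Nat.add a (Nat.mul u r)) L) k) (Nat.div k r)) false
  (Nat.ble r (Nat.add (Nat.mod N r) (Nat.mod k r)))

theorem ok_of {k r N : ℕ} {σ : ℕ → ℕ} (w : W 0 k σ) (h : Inv k σ N r) (r1 : 1 ≤ r) (rk : r ≤ k) :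
    ok k r N (Lc r) = true := by
  obtain ⟨a, τ, a1, a2, a3, -, E, H⟩ := w.cls r1 rk
  have d := (h r r1 le_rfl a a1 (by omega)).1 ((H a a1 (by omega)).2 rfl)
  have x := Nat.mod_lt N r1
  have e : a = r - N % r := by
    rw [Nat.dvd_iff_mod_eq_zero, ← Nat.mod_add_mod, ← Nat.dvd_iff_mod_eq_zero] at d
    obtain ⟨j, hj⟩ := d
    have : j < 2 := by nlinarith
    interval_cases j <;> omega
  have := Nat.div_add_mod' k r
  have z : Nat.ble r (Nat.add (Nat.mod N r) (Nat.mod k r)) = false := by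
    rw [← Bool.not_eq_true, Nat.ble_eq]
    change ¬r ≤ N % r + k % r
    omega
  simp only [ok, z, fN_eq, allLt_iff, Nat.ble_eq]
  change ∀ u < k / r, Nat.gcd (N + (r - N % r) + u * r) (Lc r) ≤ k
  intro u hu
  have b := (E u hu).1
  have r := w.rng (a + u * r) (by omega) b
  rw [← e, add_assoc]
  exact (Nat.le_of_dvd r.1 ((h.iff (Nat.gcd_dvd_right _ _) (by omega) (by omega)).2
    (Nat.gcd_dvd_left _ _))).trans r.2

theorem crt {k y N : ℕ} {σ : ℕ → ℕ} (w : W 0 k σ) (h : Inv k σ N y) (hy : y < k) (hN : N < Lc y) :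
    ∃ a < Lc (y + 1) / Lc y, N + a * Lc y < Lc (y + 1) ∧ Inv k σ (N + a * Lc y) (y + 1) := by
  obtain ⟨a, τ, a1, a2, -, -, -, H⟩ := w.cls y.succ_pos hy
  have d := (h.iff (Nat.gcd_dvd_left (Lc y) (y + 1)) a1 (by omega)).1
    ((Nat.gcd_dvd_right _ _).trans ((H a a1 (by omega)).2 rfl))
  have c : N ≡ y + 1 - a [MOD Nat.gcd (Lc y) (y + 1)] := Nat.ModEq.add_right_cancel' a (by
    rw [Nat.sub_add_cancel (by omega)]
    exact (Nat.modEq_zero_iff_dvd.2 d).trans (Nat.modEq_zero_iff_dvd.2 (Nat.gcd_dvd_right _ _)).symm)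
  obtain ⟨x, ⟨x1, x2⟩, lt⟩ : ∃ x, (x ≡ N [MOD Lc y] ∧ x ≡ y + 1 - a [MOD y + 1]) ∧ x < Lc (y + 1) :=
    ⟨_, (Nat.chineseRemainder' c).2, Nat.chineseRemainder'_lt_lcm c (Lc_pos y).ne' y.succ_ne_zero⟩
  have e : N + x / Lc y * Lc y = x := by
    rw [← Nat.mod_eq_of_lt hN, ← x1]; exact Nat.mod_add_div' _ _
  refine ⟨x / Lc y, Nat.div_lt_div_of_lt_of_dvd (Nat.dvd_lcm_left _ _) lt, by rwa [e], ?_⟩
  rw [e]
  intro m m1 my i i1 i2
  rcases my.eq_or_lt with rfl | my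
  · have z : x + a ≡ 0 [MOD y + 1] := (x2.add_right a).trans (by
      rw [Nat.sub_add_cancel (by omega)]; simp [Nat.ModEq])
    rw [H i i1 (by omega), ← Nat.modEq_zero_iff_dvd]
    exact ⟨fun q => (q.symm.add_left x).trans z, fun q => Nat.ModEq.add_left_cancel' x (z.trans q.symm)⟩
  · rw [h m m1 (by omega) i i1 i2]
    exact (((x1.of_dvd (dvd_Lc m1 (by omega))).add_right i).dvd_iff dvd_rfl).symm

noncomputable def go (k : ℕ) (leaf : ℕ → ℕ → Bool) : ℕ → ℕ → ℕ → ℕ → Bool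
  | 0, _, L, N => leaf L N
  | f + 1, y, L, N => fN (y + 1) fun r => fN (Nat.lcm L r) fun L' =>
      bif Nat.beq L' L then go k leaf f r L' N else
      allLt (fun a => fN (Nat.add N (Nat.mul a L)) fun M =>
        bif ok k r M L' then go k leaf f r L' M else true) (L' / L)

theorem go_spec {k : ℕ} {leaf : ℕ → ℕ → Bool} {σ : ℕ → ℕ} (w : W 0 k σ) : ∀ f y N, y + f = k →
    N < Lc y → Inv k σ N y → go k leaf f y (Lc y) N = true →
      ∃ M, Inv k σ M k ∧ leaf (Lc k) M = true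
  | 0, y, N, e, _, h, g => by obtain rfl : y = k := e; exact ⟨N, h, g⟩
  | f + 1, y, N, e, l, h, g => by
    obtain ⟨a, a1, a2, a3⟩ := crt w h (by omega) l
    refine go_spec w f (y + 1) _ (by omega) a2 a3 ?_
    rw [go, fN_eq, fN_eq, show (Lc y).lcm (y + 1) = Lc (y + 1) from rfl, Bool.cond_eq_ite] at g
    split_ifs at g with c
    · rw [Nat.eq_of_beq_eq_true c, Nat.div_self (Lc_pos y)] at a1
      obtain rfl : a = 0 := by omega
      simpa using g
    · have := (allLt_iff _ _).1 g a a1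
      rwa [fN_eq, Nat.add_eq, Nat.mul_eq, ok_of w a3 (by omega) (by omega)] at this

theorem enum {k : ℕ} {leaf : ℕ → ℕ → Bool} {σ : ℕ → ℕ} (w : W 0 k σ)
    (g : go k leaf k 0 1 0 = true) : ∃ M, Inv k σ M k ∧ leaf (Lc k) M = true :=
  go_spec w k 0 0 (by simp) Nat.one_pos (fun _ _ _ => by omega) g

noncomputable def leaf1 (k L3 L N : ℕ) : Bool :=
  (Nat.gcd (N + 1) L == 1 || Nat.gcd (N + k) L == 1) &&
    !allLt (fun c => !(N % L3 == c % L3 || (N + (k + 1 + c)) % L3 == 0)) 3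

def exch (a b : ℕ) (s : List ℕ) : List ℕ :=
  s.map fun x => if x = a then b else if x = b then a else x

def st1 (k : ℕ) : List ℕ := List.range' 1 k
def st2 (k : ℕ) : List ℕ := List.range' 2 (k - 1) ++ [1]
def st3 (k p : ℕ) : List ℕ := exch p (p + 2) (exch 2 (2 * p) (st1 k))
def st4 (k p : ℕ) : List ℕ := exch p (p + 2) (List.range' 3 (k - 2) ++ [2, 1])
def st5 (k p : ℕ) : List ℕ := exch p (p + 2) (exch 2 (2 * p) (st2 k))

inductive Start (k : ℕ) : ℕ → List ℕ → Prop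
  | s1 : Start k 1 (st1 k)
  | s2 : (k + 1).Prime → Start k 2 (st2 k)
  | s3 (p : ℕ) : p.Prime → (p + 2).Prime → (k = 2 * p ∨ k = 2 * p + 1) → Start k 3 (st3 k p)
  | s4 (p : ℕ) : p.Prime → (p + 2).Prime → (2 * p + 1).Prime → k + 1 = 2 * p →
      Start k 4 (st4 k p)
  | s5 (p : ℕ) : p.Prime → (p + 2).Prime → (2 * p + 1).Prime → k = 2 * p → Start k 5 (st5 k p)

inductive Der (k n : ℕ) (s₀ : List ℕ) : List ℕ → Prop
  | start : Der k n s₀ s₀
  | twin (q : ℕ) (s : List ℕ) : n = 4 → q.Prime → (q + 2).Prime → q + 2 ≤ k → (k + 1) / 2 < q →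
      s.idxOf q = s₀.idxOf q → s.idxOf (q + 2) = s₀.idxOf (q + 2) → Der k n s₀ s →
      Der k n s₀ (exch q (q + 2) s)
  | pps (p c : ℕ) (s : List ℕ) : p.Prime → 1 ≤ c → p ^ c ≤ k → k < p ^ c + p ^ (c - 1) →
      Der k n s₀ s → Der k n s₀ (exch (p ^ c) (p ^ (c - 1)) s)
  | rev (s : List ℕ) : Der k n s₀ s → Der k n s₀ s.reverse

def Dv (k : ℕ) (s : List ℕ) : Prop := ∃ n s₀, Start k n s₀ ∧ Der k n s₀ s

noncomputable def pr (n : ℕ) : Bool := Nat.ble 2 n && allLt (fun d => Nat.ble d 1 || !Nat.beq (n % d) 0) n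

theorem pr_spec {n : ℕ} (h : pr n = true) : n.Prime := by
  simp only [pr, Bool.and_eq_true, Nat.ble_eq, allLt_iff, Bool.or_eq_true, Bool.not_eq_true',
    ← Bool.not_eq_true, Nat.beq_eq, not_not] at h
  refine Nat.prime_def_lt.2 ⟨h.1, fun m l d => ?_⟩
  rcases h.2 m l with x | x
  · rcases m with _ | m
    · rw [zero_dvd_iff] at d; omega
    · omega
  · exact absurd (Nat.mod_eq_zero_of_dvd d) x

noncomputable def addT (k : ℕ) (s₀ : List ℕ) : ℕ → List (List ℕ)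
  | 0 => [s₀]
  | q + 1 => if (k + 1) / 2 < q ∧ pr q = true ∧ pr (q + 2) = true then
      addT k s₀ q ++ ((addT k s₀ q).filter fun s => s.idxOf q == s₀.idxOf q &&
        s.idxOf (q + 2) == s₀.idxOf (q + 2)).map (exch q (q + 2)) else addT k s₀ q

theorem addT_spec (k : ℕ) (s₀ : List ℕ) : ∀ q, q + 1 ≤ k → ∀ s ∈ addT k s₀ q, Der k 4 s₀ s
  | 0, _, s, h => by rw [List.mem_singleton.1 h]; exact .start
  | q + 1, l, s, h => by
    rw [addT] at h
    split_ifs at h with c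
    · rcases List.mem_append.1 h with h | h
      · exact addT_spec k s₀ q (by omega) s h
      · obtain ⟨t, ht, rfl⟩ := List.mem_map.1 h
        simp only [List.mem_filter, Bool.and_eq_true, beq_iff_eq] at ht
        exact .twin q t rfl (pr_spec c.2.1) (pr_spec c.2.2) l c.1 ht.2.1 ht.2.2
          (addT_spec k s₀ q (by omega) t ht.1)
    · exact addT_spec k s₀ q (by omega) s h

noncomputable def base (k : ℕ) : List (List ℕ) :=
  st1 k :: ((if pr (k + 1) then [st2 k] else []) ++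
    (if pr (k / 2) && pr (k / 2 + 2) then st3 k (k / 2) ::
      (if k % 2 = 0 ∧ pr (k + 1) = true then [st5 k (k / 2)] else []) else []) ++
    (if k % 2 = 1 ∧ pr (k / 2 + 1) = true ∧ pr (k / 2 + 1 + 2) = true ∧ pr (k + 2) = true then
      addT k (st4 k (k / 2 + 1)) (k - 1) else []))

theorem base_spec (k : ℕ) : ∀ s ∈ base k, Dv k s := by
  intro s h
  simp only [base, List.mem_cons, List.mem_append, List.mem_ite_nil_right, List.not_mem_nil,
    or_false, Bool.and_eq_true] at h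
  rcases h with rfl | (⟨a, rfl⟩ | ⟨⟨a, b⟩, rfl | ⟨⟨c, d⟩, rfl⟩⟩) | ⟨⟨a, b, c, d⟩, h⟩
  · exact ⟨_, _, .s1, .start⟩
  · exact ⟨_, _, .s2 (pr_spec a), .start⟩
  · exact ⟨_, _, .s3 _ (pr_spec a) (pr_spec b) (by omega), .start⟩
  · exact ⟨_, _, .s5 _ (pr_spec a) (pr_spec b) (by convert pr_spec d using 1; omega) (by omega),
      .start⟩
  · exact ⟨_, _, .s4 _ (pr_spec b) (pr_spec c) (by convert pr_spec d using 1; omega) (by omega),
      addT_spec k _ _ (by omega) s h⟩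

noncomputable def addP (k : ℕ) : ℕ → List (List ℕ)
  | 0 => base k
  | p + 1 => if 1 ≤ Nat.log p k ∧ p ^ Nat.log p k ≤ k ∧
      k < p ^ Nat.log p k + p ^ (Nat.log p k - 1) ∧ pr p = true then
      addP k p ++ (addP k p).map (exch (p ^ Nat.log p k) (p ^ (Nat.log p k - 1))) else addP k p

theorem addP_spec (k : ℕ) : ∀ p, ∀ s ∈ addP k p, Dv k s
  | 0, s, h => base_spec k s h
  | p + 1, s, h => by
    rw [addP] at h
    split_ifs at h with c
    · rcases List.mem_append.1 h with h | h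
      · exact addP_spec k p s h
      · obtain ⟨t, ht, rfl⟩ := List.mem_map.1 h
        obtain ⟨n, s₀, a, b⟩ := addP_spec k p t ht
        exact ⟨n, s₀, a, .pps p _ t (pr_spec c.2.2.2) c.1 c.2.1 c.2.2.1 b⟩
    · exact addP_spec k p s h

def enc : List ℕ → ℕ
  | [] => 0
  | a :: l => Nat.add a (Nat.mul 256 (enc l))

noncomputable def DL (k : ℕ) : List (ℕ × List ℕ) :=
  (addP k (k + 1) ++ (addP k (k + 1)).map List.reverse).map fun s => (enc s, s)

theorem DL_spec (k : ℕ) : ∀ x ∈ DL k, Dv k x.2 := by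
  intro x h
  obtain ⟨s, hs, rfl⟩ := List.mem_map.1 h
  rcases List.mem_append.1 hs with h | h
  · exact addP_spec k _ s h
  · obtain ⟨t, ht, rfl⟩ := List.mem_map.1 h
    obtain ⟨n, s₀, a, b⟩ := addP_spec k _ t ht
    exact ⟨n, s₀, a, .rev t b⟩

def seq (k : ℕ) (σ : ℕ → ℕ) : List ℕ := (List.range' 1 k).map σ

noncomputable def leaf2 (D : List (ℕ × List ℕ)) (s : List ℕ) : Bool :=
  fN (enc s) fun e => D.any fun x => Nat.beq x.1 e && x.2 == s

noncomputable def T (a n : ℕ) : Bool :=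
  allLt (fun j => fN (a + j) fun k => fN (Lc (k / 3)) fun L3 => go k (fun L N => leaf1 k L3 L N &&
    leaf2 (DL k) (seq k fun i => Nat.gcd (Nat.add N i) L)) k 0 1 0) n

end Pool.Agent.H.MP_537c9d_co
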