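import Pool.Agent.H.MP_537c9d_co.D3

namespace Pool.Agent.H.MP_537c9d_co

theorem c7 : T 140 10 = true := by decide +kernel

theorem T_spec {a n k : ℕ} (h : T a n = true) (h1 : a ≤ k) (h2 : k < a + n) :
    go k (fun L N => leaf1 k (Lc (k / 3)) L N &&
      leaf2 (DL k) (seq k fun i => Nat.gcd (N + i) L)) k 0 1 0 = true := by
  have := (allLt_iff _ _).1 h (k - a) (by omega)
  rwa [fN_eq, fN_eq, Nat.add_sub_cancel' h1] at this

theorem comp {k : ℕ} (hk : k < 150) : go k (fun L N => leaf1 k (Lc (k / 3)) L N &&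
    leaf2 (DL k) (seq k fun i => Nat.gcd (N + i) L)) k 0 1 0 = true := by
  by_cases h1 : k < 70; · exact T_spec c1 (by omega) h1
  by_cases h2 : k < 90; · exact T_spec c2 (by omega) h2
  by_cases h3 : k < 105; · exact T_spec c3 (by omega) h3
  by_cases h4 : k < 120; · exact T_spec c4 (by omega) h4
  by_cases h5 : k < 130; · exact T_spec c5 (by omega) h5
  by_cases h6 : k < 140; · exact T_spec c6 (by omega) h6
  exact T_spec c7 (by omega) hk

theorem small {k : ℕ} (hk : k < 150) {σ : ℕ → ℕ} (w : W 0 k σ) :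
    ((1 ≤ k → σ 1 = 1 ∨ σ k = 1) ∧ A k σ) ∧ Dv k (seq k σ) := by
  obtain ⟨N, h, l⟩ := enum w (comp hk)
  rw [Bool.and_eq_true] at l
  obtain ⟨l, l'⟩ := l
  refine ⟨?_, ?_⟩
  swap
  · simp only [leaf2, fN_eq, List.any_eq_true, Bool.and_eq_true, beq_iff_eq] at l'
    obtain ⟨x, hx, -, e⟩ := l'
    have := DL_spec k x hx
    rw [e] at this
    convert this using 1
    refine List.map_congr_left fun i hi => ?_
    rw [List.mem_range'_1] at hi
    exact h.val w hi.1 (by omega)
  simp only [leaf1, Bool.and_eq_true, Bool.or_eq_true, beq_iff_eq, Bool.not_eq_true',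
    ← Bool.not_eq_true, allLt_iff, not_forall, not_not] at l
  refine ⟨fun k1 => ?_, ?_⟩
  · rw [h.val w Nat.one_pos k1, h.val w k1 le_rfl]; exact l.1
  · obtain ⟨c, c3, hc⟩ := l.2
    refine ⟨c, by omega, hc.imp (fun e m m1 m3 t t1 t2 => ?_) fun e m m1 m3 t t1 t2 => ?_⟩
    · rw [h m m1 (by omega) _ (by omega) (by omega)]
      have := (Nat.ModEq.of_dvd (dvd_Lc m1 (by omega : m ≤ k / 3)) e).add_right (t + 0 - c)
      rw [show c + (t + 0 - c) = t by omega] at this
      exact this.dvd_iff dvd_rfl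
    · rw [h m m1 (by omega) _ (by omega) (by omega)]
      have := (dvd_Lc m1 (by omega : m ≤ k / 3)).trans (Nat.dvd_of_mod_eq_zero e)
      rw [show N + (k + 1 + c) = N + (0 + k + 1 + c - t) + t by omega] at this
      exact ⟨fun d => (Nat.dvd_add_right d).1 this, fun d => (Nat.dvd_add_left d).1 this⟩

theorem align (k : ℕ) : ∀ σ, W 0 k σ → A k σ := by
  induction k using Nat.strong_induction_on with
  | _ k ih =>
    intro σ w
    by_cases hk : k < 150
    · exact (small hk w).1.2
    · exact step (by omega) (ih _ (by omega)) w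

theorem ends {k : ℕ} (k1 : 1 ≤ k) {σ : ℕ → ℕ} (w : W 0 k σ) : σ 1 = 1 ∨ σ k = 1 := by
  by_cases hk : k < 150
  · exact (small hk w).1.1 k1
  obtain ⟨c, c2, H | H⟩ := align k σ w
  · simpa using (w.sh c).ends H c2 (by omega)
  · have := (w.rev c).ends H c2 (by omega)
    rwa [show 0 + k + 1 + c - (c + 1) = k by omega, show 0 + k + 1 + c - (c + k) = 1 by omega,
      or_comm] at this

end Pool.Agent.H.MP_537c9d_co
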