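import Pool.Agent.H.MP_537c9d_co.C

namespace Pool.Agent.H.MP_537c9d_co

theorem c1 : T 0 70 = true := by decide +kernel
theorem c2 : T 70 20 = true := by decide +kernel

end Pool.Agent.H.MP_537c9d_co
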