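import Pool.Agent.H.MP_537c9d_co.D1

namespace Pool.Agent.H.MP_537c9d_co

theorem c3 : T 90 15 = true := by decide +kernel
theorem c4 : T 105 15 = true := by decide +kernel

end Pool.Agent.H.MP_537c9d_co
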