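import Pool.Agent.H.MP_537c9d_co.D2

namespace Pool.Agent.H.MP_537c9d_co

theorem c5 : T 120 10 = true := by decide +kernel
theorem c6 : T 130 10 = true := by decide +kernel

end Pool.Agent.H.MP_537c9d_co
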