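import Pool.Agent.H.MP_537c9d_co.D

namespace Pool.Agent.H.MP_537c9d_co

def sw (a b x : ℕ) : ℕ := if x = a then b else if x = b then a else x

theorem sw_sw (a b x : ℕ) : sw a b (sw a b x) = x := by
  unfold sw; split_ifs <;> omega

theorem sw_dvd {p e m : ℕ} (hp : p.Prime) (hm : m ≠ p ^ (e + 1)) (v : ℕ) :
    m ∣ sw (p ^ (e + 1)) (p ^ e) v ↔ m ∣ v := by
  have : m ∣ p ^ e ↔ m ∣ p ^ (e + 1) := ⟨fun d => d.trans (pow_dvd_pow _ e.le_succ), fun d => by
    obtain ⟨i, hi, rfl⟩ := (Nat.dvd_prime_pow hp).1 d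
    exact pow_dvd_pow _ (Nat.le_of_lt_succ (lt_of_le_of_ne hi fun x => hm (by rw [x])))⟩
  unfold sw; split_ifs with a b
  · rw [a, this]
  · rw [b, this]
  · rfl

theorem W.pps {c k : ℕ} {ρ : ℕ → ℕ} (h : W c k ρ) {p e : ℕ} (hp : p.Prime) (h1 : p ^ (e + 1) ≤ k)
    (h2 : k < p ^ (e + 1) + p ^ e) : W c k fun t => sw (p ^ (e + 1)) (p ^ e) (ρ t) := by
  have x0 : 0 < p ^ e := Nat.pow_pos hp.pos
  have xy : p ^ (e + 1) = p * p ^ e := pow_succ' _ _
  have p2 := hp.two_le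
  have x2 : 2 * p ^ e ≤ p ^ (e + 1) := xy ▸ Nat.mul_le_mul_right _ p2
  have R : ∀ t, c < t → t ≤ c + k → 1 ≤ sw (p ^ (e + 1)) (p ^ e) (ρ t) ∧
      sw (p ^ (e + 1)) (p ^ e) (ρ t) ≤ k := fun t a b => by
    have := h.rng t a b
    unfold sw; split_ifs <;> omega
  refine ⟨R, fun s t a b c d x => h.inj s t a b c d ?_, fun m s t s1 s2 t1 t2 d x => ?_⟩
  · simpa only [sw_sw] using congrArg (sw (p ^ (e + 1)) (p ^ e)) x
  by_cases hm : m = p ^ (e + 1)
  swap
  · rw [sw_dvd hp hm] at d ⊢; exact h.dvd m s t s1 s2 t1 t2 d x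
  subst hm
  have e1 : ρ s = p ^ e := by
    obtain ⟨j, hj⟩ := d
    have := R s s1 s2
    rw [hj] at this
    have j1 : j = 1 := by
      rcases j with _ | _ | j
      · omega
      · rfl
      · nlinarith
    rw [← sw_sw (p ^ (e + 1)) (p ^ e) (ρ s), hj, j1, mul_one, sw, if_pos rfl]
  obtain ⟨a, -, a1, a2, a3, -, -, H⟩ := h.cls x0 (by omega)
  rw [Nat.div_eq_of_lt_le (k := p) (by omega) (by rw [Nat.succ_mul]; omega), ← xy] at a3
  have G : ∀ u, c < u → a ≡ u [MOD p ^ e] → a ≤ u := fun u u1 y => by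
    by_contra z
    have := Nat.le_of_dvd (by omega) ((Nat.modEq_iff_dvd' (by omega)).1 y.symm)
    omega
  have y := (H s s1 s2).1 (e1 ▸ dvd_rfl)
  have := G s s1 y
  have := G t t1 (y.trans (x.of_dvd (pow_dvd_pow _ e.le_succ)))
  obtain rfl : s = t := by
    rcases le_total s t with l | l
    · have := Nat.eq_zero_of_dvd_of_lt ((Nat.modEq_iff_dvd' l).1 x) (by omega); omega
    · have := Nat.eq_zero_of_dvd_of_lt ((Nat.modEq_iff_dvd' l).1 x.symm) (by omega); omega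
  exact d

theorem W.pp_un {c k : ℕ} {ρ : ℕ → ℕ} (h : W c k ρ) (H : ALL c k ρ) (hc : c ≤ 2) (hk : 150 ≤ k)
    {p e : ℕ} (hp : p.Prime) (e1 : 1 ≤ e) (rk : p ^ (e + 1) ≤ k) (aq : Al c k ρ (p ^ e))
    (na : ¬Al c k ρ (p ^ (e + 1))) : k < p ^ (e + 1) + p ^ e ∧ ρ (p ^ (e + 1)) = p ^ e := by
  have q1 : p ≤ p ^ e := Nat.le_self_pow (by omega) p
  have hr : p ^ (e + 1) = p * p ^ e := pow_succ' _ _
  have cp : ∀ m, ¬p ∣ m → m.Coprime (p ^ (e + 1)) := fun m d =>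
    Nat.Coprime.pow_right _ (hp.coprime_iff_not_dvd.2 d).symm
  have p2 := hp.two_le
  generalize p ^ e = q at *
  generalize p ^ (e + 1) = r at *
  have r0 : 1 ≤ r := by nlinarith
  have r3 : k < 3 * r := not_le.1 fun x => na (H r r0 x)
  have q3 : 7 ≤ q := by nlinarith
  have p6 : 6 * p ≤ k := by nlinarith
  obtain ⟨a, τ, a1, a2, a3, w, E, -⟩ := h.cls r0 rk
  have n1 : 1 ≤ k / r := (Nat.le_div_iff_mul_le r0).2 (by omega)
  have n2 : k / r < 3 := (Nat.div_lt_iff_lt_mul r0).2 r3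
  generalize k / r = n at *
  have e0 := E 0 n1
  rw [zero_mul, add_zero] at e0
  obtain ⟨b, rfl⟩ := (aq a a1 e0.1).1 (e0.2 ▸ hr ▸ (dvd_mul_left _ _).mul_right _)
  have nb : ¬p ∣ b := fun d => na (h.al a1 e0.1 (e0.2 ▸ dvd_mul_right _ _) (by
    rw [hr, mul_comm]; exact Nat.mul_dvd_mul_left q d))
  have bp : b ≤ p := by nlinarith
  have b0 : 1 ≤ b := by rcases b with _ | b; simp at nb; omega
  have G : ∀ u < n, b + u * p ≤ n := fun u un =>
    (Nat.le_of_dvd (w.rng _ (by omega) (by omega)).1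
      ((cp _ fun d => nb ((Nat.dvd_add_left (dvd_mul_left _ _)).1 d)).dvd_of_dvd_mul_left
        ((E u un).2 ▸ (H _ (by omega) (by nlinarith) _ (by omega) (E u un).1).2
          ⟨q, by rw [hr]; ring⟩))).trans (w.rng (u + 1) (by omega) (by omega)).2
  obtain rfl : n = 1 := by
    by_contra x
    have := G 1 (by omega)
    omega
  obtain rfl : b = 1 := by have := G 0 (by omega); omega
  have := w.rng (0 + 1) (by omega) (by omega)
  rw [show τ (0 + 1) = 1 by omega, mul_one, mul_one] at e0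
  refine ⟨by omega, ?_⟩
  have cr : c < r := by omega
  obtain ⟨d, hd⟩ := (aq r cr (by omega)).2 ⟨p, by rw [hr, mul_comm]⟩
  have R := h.rng r cr (by omega)
  rw [hd] at R
  have d0 : 1 ≤ d := Nat.pos_of_mul_pos_left R.1
  have dp : d ≤ p := by nlinarith
  have : d ≠ p := by
    rintro rfl
    have := h.inj r q cr (by omega) (by omega) e0.1 (by rw [hd, e0.2, hr, mul_comm])
    nlinarith
  have x := (H d d0 (by omega) r cr (by omega)).1 ⟨q, by rw [hd, mul_comm]⟩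
  rw [hd, (cp d fun y => by have := Nat.le_of_dvd d0 y; omega).eq_one_of_dvd x, mul_one]

def sq (c k : ℕ) (ρ : ℕ → ℕ) : List ℕ := (List.range' (c + 1) k).map ρ

theorem exch_sq (a b c k : ℕ) (ρ : ℕ → ℕ) : exch a b (sq c k ρ) = sq c k fun t => sw a b (ρ t) := by
  simp only [exch, sq, List.map_map]; rfl

theorem sq_congr {c k : ℕ} {f g : ℕ → ℕ} (h : ∀ t, c < t → t ≤ c + k → f t = g t) :
    sq c k f = sq c k g := List.map_congr_left fun t ht => by
  rw [List.mem_range'_1] at ht; exact h t ht.1 (by omega)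

theorem Dv.pps {c k p e : ℕ} {ρ : ℕ → ℕ} (hp : p.Prime) (h1 : p ^ (e + 1) ≤ k)
    (h2 : k < p ^ (e + 1) + p ^ e) (h : Dv k (sq c k fun t => sw (p ^ (e + 1)) (p ^ e) (ρ t))) :
    Dv k (sq c k ρ) := by
  obtain ⟨n, s, a, b⟩ := h
  have := Der.pps p (e + 1) _ hp (by omega) h1 h2 b
  rw [exch_sq] at this
  simp only [Nat.add_sub_cancel, sw_sw] at this
  exact ⟨n, s, a, this⟩

def SM (c k : ℕ) (ρ : ℕ → ℕ) : Prop :=
  ∀ d, 1 ≤ d → d ≤ k → (∀ q, q.Prime → q ∣ d → 3 * q ≤ k) → Al c k ρ d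

open Classical in
theorem norm {c k : ℕ} (hc : c ≤ 2) (hk : 150 ≤ k)
    (G : ∀ ρ, W c k ρ → ALL c k ρ → SM c k ρ → Dv k (sq c k ρ)) (n : ℕ) : ∀ ρ, W c k ρ →
    ALL c k ρ → ((Finset.range (k + 1)).filter fun m => ¬Al c k ρ m).card ≤ n →
      Dv k (sq c k ρ) := by
  induction n using Nat.strong_induction_on with
  | _ n ih =>
  intro ρ h H hn
  by_cases x : ∀ p e, p.Prime → 1 ≤ e → p ^ (e + 1) ≤ k → Al c k ρ (p ^ e) → Al c k ρ (p ^ (e + 1))
  · refine G ρ h H fun d d1 dk hd t t1 t2 => ?_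
    have y : ∀ p, p.Prime → 3 * p ≤ k → ∀ e, p ^ e ≤ k → Al c k ρ (p ^ e) := fun p hp p3 e => by
      induction e with
      | zero => intro _ _ _ _; simp
      | succ e ih =>
        intro l
        rcases Nat.eq_zero_or_pos e with rfl | e0
        · simpa using H p hp.pos p3
        · exact x p e hp e0 l (ih ((Nat.pow_le_pow_right hp.pos e.le_succ).trans l))
    rw [Nat.dvd_iff_prime_pow_dvd_dvd, Nat.dvd_iff_prime_pow_dvd_dvd t]
    refine forall₂_congr fun p j => forall₂_congr fun pp z => ?_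
    rcases Nat.eq_zero_or_pos j with rfl | j0
    · simp
    · exact y p pp (hd p pp ((dvd_pow_self p j0.ne').trans z)) j ((Nat.le_of_dvd d1 z).trans dk)
        t t1 t2
  · push Not at x
    obtain ⟨p, e, hp, e1, rk, aq, na⟩ := x
    obtain ⟨u, v⟩ := h.pp_un H hc hk hp e1 rk aq na
    have h' := h.pps hp rk u
    have A1 : ∀ m, Al c k ρ m → Al c k (fun t => sw (p ^ (e + 1)) (p ^ e) (ρ t)) m :=
      fun m a t t1 t2 => by rw [sw_dvd hp (fun x => na (x ▸ a))]; exact a t t1 t2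
    have lt : p ^ e < p ^ (e + 1) := Nat.pow_lt_pow_right hp.one_lt e.lt_succ_self
    refine Dv.pps hp rk u (ih _ (lt_of_lt_of_le (Finset.card_lt_card ⟨fun m hm => ?_, fun z => ?_⟩)
      hn) _ h' (fun m a b => A1 m (H m a b)) le_rfl)
    · rw [Finset.mem_filter] at hm ⊢; exact ⟨hm.1, fun a => hm.2 (A1 m a)⟩
    · refine (Finset.mem_filter.1 (z (Finset.mem_filter.2 ⟨Finset.mem_range.2 (by omega), na⟩))).2
        (h'.al (t := p ^ (e + 1)) (by omega) (by omega) ?_ dvd_rfl)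
      rw [v, sw, if_neg lt.ne, if_pos rfl]

end Pool.Agent.H.MP_537c9d_co
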