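import Pool.Agent.H.MP_537c9d_co.E

namespace Pool.Agent.H.MP_537c9d_co

theorem pm {P : ℕ} (hP : P.Prime) (h : 3 < P) : P % 2 = 1 ∧ P % 3 ≠ 0 :=
  ⟨by have := hP.eq_two_or_odd; omega, fun d => by
    have := (Nat.prime_dvd_prime_iff_eq Nat.prime_three hP).1 (Nat.dvd_of_mod_eq_zero d); omega⟩

theorem form {k d : ℕ} (d1 : 1 ≤ d) (dk : d ≤ k) : (∀ q, q.Prime → q ∣ d → 3 * q ≤ k) ∨
    ∃ P, P.Prime ∧ k < 3 * P ∧ (d = P ∨ d = 2 * P) := by
  by_contra x
  push Not at x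
  obtain ⟨⟨P, a, ⟨j, rfl⟩, b⟩, y⟩ := x
  have := y P a b
  have : j < 3 := by nlinarith
  interval_cases j <;> omega

theorem prime_of {k t : ℕ} (hk : 150 ≤ k) (t2 : 2 ≤ t) (tk : t ≤ k + 2)
    (h : ∀ m, 1 ≤ m → 3 * m ≤ k → m ∣ t → m ∣ 1) : t.Prime ∧ k < 3 * t := by
  refine ⟨by_contra fun np => ?_, not_le.1 fun x => ?_⟩
  · have q := Nat.minFac_sq_le_self (by omega) np
    have p2 := (Nat.minFac_prime (by omega : t ≠ 1)).two_le
    have := Nat.le_of_dvd one_pos (h _ (by omega) (by nlinarith) (Nat.minFac_dvd t))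
    omega
  · have := Nat.le_of_dvd one_pos (h t (by omega) x dvd_rfl); omega

structure X (c k : ℕ) (ρ : ℕ → ℕ) : Prop where
  h : W c k ρ
  al : ALL c k ρ
  S : SM c k ρ
  hc : c ≤ 2
  hk : 150 ≤ k
  h1 : c = 0 → ρ 1 = 1

def TT (c k : ℕ) (ρ : ℕ → ℕ) (Q : ℕ) : Prop := Q.Prime ∧ k < 3 * Q ∧ 2 * Q ≤ k ∧ c ≤ 1 ∧
  c + k ≤ 2 * Q + 1 ∧ (Q + 2).Prime ∧ ρ 2 = 2 * Q ∧ ρ (Q + 2) = Q

def TW (k : ℕ) (ρ : ℕ → ℕ) (q : ℕ) : Prop :=
  q.Prime ∧ (q + 2).Prime ∧ k < 2 * q ∧ q + 2 ≤ k ∧ ρ q = q + 2 ∧ ρ (q + 2) = q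

variable {c k : ℕ} {ρ : ℕ → ℕ}

theorem X.fix (x : X c k ρ) {t : ℕ} (t3 : 3 ≤ t) (tk : t ≤ k)
    (s : ∀ q, q.Prime → q ∣ t → 3 * q ≤ k) : ρ t = t := by
  have := x.hc
  have r := x.h.rng t (by omega) (by omega)
  have d := (x.S t (by omega) tk s t (by omega) (by omega)).2 dvd_rfl
  rcases form r.1 r.2 with y | ⟨P, pp, P3, e⟩
  · exact Nat.dvd_antisymm ((x.S _ r.1 r.2 y t (by omega) (by omega)).1 dvd_rfl) d
  · have cp : t.Coprime P := (pp.coprime_iff_not_dvd.2 fun z => by have := s P pp z; omega).symm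
    have : t ∣ 2 * P := by rcases e with e | e <;> rw [e] at d; exact d.mul_left 2; exact d
    have := Nat.le_of_dvd two_pos (cp.dvd_of_dvd_mul_right this)
    omega

theorem X.mid (x : X c k ρ) (Q : ℕ) : Q.Prime → k < 3 * Q → 2 * Q ≤ k →
    (ρ Q = Q ∧ ρ (2 * Q) = 2 * Q) ∨ TT c k ρ Q := by
  induction Q using Nat.strong_induction_on with
  | _ Q ih =>
  intro hQ Q3 Q2
  have ⟨h, H, _, hc, hk, _⟩ := x
  have Qo := pm hQ (by omega)
  obtain ⟨a, τ, a1, a2, a3, w, E, -⟩ := h.cls (r := Q) (by omega) (by omega)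
  rw [show k / Q = 2 from Nat.div_eq_of_lt_le (by omega) (by omega)] at a3 w E
  have e0 := E 0 (by omega)
  have e1 := E 1 (by omega)
  simp only [zero_mul, add_zero, one_mul, zero_add] at e0 e1
  have k0 := h.prime_cls H hQ Q3 a1 e0.1 e0.2
  have k1 := h.prime_cls H hQ Q3 (by omega) e1.1 e1.2
  have r0 := w.rng 1 (by omega) (by omega)
  have r1 := w.rng (1 + 1) (by omega) (by omega)
  have ne : τ 1 ≠ τ (1 + 1) := fun e => by
    have := w.inj _ _ (by omega) (by omega) (by omega) (by omega) e; omega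
  have z2 := k0 2 (by omega) (by omega)
  by_cases o : 2 ∣ a
  · have t1 : τ 1 = 2 := by have := z2.1 o; omega
    have t2 : τ (1 + 1) = 1 := by omega
    rw [t1] at k0 e0
    rw [t2] at k1 e1
    obtain rfl : a = 2 := by
      have := Nat.le_of_dvd two_pos ((k0 (a / 2) (by omega) (by omega)).1 ⟨2, by omega⟩)
      have := (k0 4 (by omega) (by omega)).1
      omega
    rw [add_comm 2 Q] at k1 e1
    exact .inr ⟨hQ, Q3, Q2, by omega, by omega,
      (prime_of hk (by omega) (by omega) fun m a b => (k1 m a b).1).1, by omega, by omega⟩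
  · have t1 : τ 1 = 1 := by have := mt z2.2 o; omega
    have t2 : τ (1 + 1) = 2 := by omega
    rw [t1] at k0 e0
    rw [t2] at k1 e1
    have : a ≠ 1 := by
      rintro rfl
      exact h.half H hc hk hQ Q2 Q3 ⟨2, by rw [add_comm, e1.2]⟩
    obtain ⟨pa, a3'⟩ := prime_of hk (by omega) (by omega) fun m a b => (k0 m a b).1
    have := (k1 4 (by omega) (by omega)).1
    rcases lt_trichotomy a Q with l | rfl | l
    · rcases ih a l pa a3' (by omega) with y | y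
      · omega
      · have := y.2.2.2.2.1; omega
    · exact .inl ⟨by omega, by rw [two_mul]; omega⟩
    · omega

theorem W.large (h : W c k ρ) {P a : ℕ} (P2 : k < 2 * P) (a1 : c < a) (a2 : a ≤ c + k)
    (e : ρ a = P) : a ≤ c + P ∧ c + k < a + P := by
  have r := h.rng a a1 a2
  obtain ⟨b, τ, b1, b2, b3, -, -, G⟩ := h.cls (r := P) (by omega) (by omega)
  rw [show k / P = 1 from Nat.div_eq_of_lt_le (by omega) (by omega)] at b3
  have y := (G a a1 a2).1 (e ▸ dvd_rfl)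
  rcases le_total a b with l | l
  · have := Nat.eq_zero_of_dvd_of_lt ((Nat.modEq_iff_dvd' l).1 y.symm) (by omega); omega
  · have := Nat.eq_zero_of_dvd_of_lt ((Nat.modEq_iff_dvd' l).1 y) (by omega); omega

theorem X.pos (x : X c k ρ) {P : ℕ} (hP : P.Prime) (P3 : k < 3 * P) (Pk : P ≤ k) :
    ∃ a, c < a ∧ a ≤ c + k ∧ ρ a = P ∧ a.Prime ∧ k < 3 * a ∧ a ≤ P + 2 := by
  have ⟨h, H, _, hc, hk, h1⟩ := x
  by_cases P2 : 2 * P ≤ k
  · rcases x.mid P hP P3 P2 with y | y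
    · exact ⟨P, by omega, by omega, y.1, hP, P3, by omega⟩
    · exact ⟨P + 2, by omega, by omega, y.2.2.2.2.2.2.2, y.2.2.2.2.2.1, by omega, le_rfl⟩
  · obtain ⟨a, a1, a2, e⟩ := h.surj (v := P) (by omega) Pk
    have := h.large (by omega) a1 a2 e
    have : a ≠ 1 := by rintro rfl; have := h1 (by omega); omega
    obtain ⟨pa, a3⟩ := prime_of hk (by omega) (by omega) fun m u v =>
      (h.prime_cls H hP P3 a1 a2 (e.trans (mul_one P).symm) m u v).1
    exact ⟨a, a1, a2, e, pa, a3, by omega⟩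

theorem X.two (x : X 2 k ρ) : k % 2 = 1 ∧ (k / 2 + 1).Prime ∧ (k + 2).Prime := by
  have := x.h.two_odd x.al x.hk
  exact ⟨this, x.h.ext_prime x.al (by omega) x.hk (j := 2) (by omega) (by omega) (by omega) (by omega),
    x.h.ext_prime x.al (by omega) x.hk (j := 1) (by omega) (by omega) (by omega) (by omega)⟩

theorem X.sp (x : X c k ρ) (P : ℕ) : P.Prime → k < 3 * P → P ≤ k → ρ P = P ∨
    (∃ q, P = q + 2 ∧ q.Prime ∧ k < 3 * q ∧ ρ q = P ∧ ρ P = q) ∨
    ((P + 2).Prime ∧ P + 2 ≤ k ∧ ρ (P + 2) = P ∧ ρ P = P + 2) := by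
  induction P using Nat.strong_induction_on with
  | _ P ih =>
  intro hP P3 Pk
  have ⟨h, H, _, hc, hk, _⟩ := x
  obtain ⟨a, a1, a2, e, pa, a3, aP⟩ := x.pos hP P3 Pk
  have o1 := pm hP (by omega)
  have o2 := pm pa (by omega)
  rcases lt_trichotomy a P with l | rfl | l
  · rcases ih a l pa a3 (by omega) with y | ⟨q, y⟩ | y
    · omega
    · omega
    · exact .inr (.inl ⟨a, by omega, pa, a3, e, by rw [← y.2.2.1]; congr 1; omega⟩)
  · exact .inl e
  obtain rfl : a = P + 2 := by omega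
  have l : P + 2 ≤ k := by
    by_contra l
    have := h.large (by omega) a1 a2 e
    obtain rfl : c = 2 := by omega
    have y := x.two
    have := pm y.2.1 (by omega)
    have : P % 3 = 2 := by omega
    obtain rfl : k = P := by omega
    omega
  obtain ⟨b, b1, b2, f, pb, b3, bP⟩ := x.pos pa a3 l
  have o3 := pm pb (by omega)
  refine .inr (.inr ⟨pa, l, e, ?_⟩)
  rcases lt_trichotomy b P with l | rfl | l
  · rcases ih b l pb b3 (by omega) with y | ⟨q, y⟩ | y <;> omega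
  · exact f
  · have : P % 3 = 2 := by omega
    obtain rfl : b = P + 2 := by omega
    omega

theorem X.nt (x : X c k ρ) {P : ℕ} (hP : P.Prime) (P3 : k < 3 * P) (l : P + 2 ≤ k)
    (e : ρ (P + 2) = P) : TT c k ρ P ∨ c = 2 ∧ k < 2 * P := by
  have ⟨h, H, _, hc, hk, _⟩ := x
  by_cases P2 : 2 * P ≤ k
  · rcases x.mid P hP P3 P2 with y | y
    · have := h.inj P (P + 2) (by omega) (by omega) (by omega) (by omega) (y.1.trans e.symm); omega
    · exact .inl y
  · have := h.large (by omega) (by omega) (by omega) e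
    omega

theorem X.desc (x : X c k ρ) {t : ℕ} (t3 : 3 ≤ t) (tk : t ≤ k) : ρ t = t ∨
    (∃ Q, TT c k ρ Q ∧ (t = Q ∨ t = Q + 2 ∨ t = 2 * Q)) ∨
    (c = 2 ∧ ∃ q, TW k ρ q ∧ (t = q ∨ t = q + 2)) := by
  rcases form (by omega) tk with y | ⟨P, pp, P3, rfl | rfl⟩
  · exact .inl (x.fix t3 tk y)
  · rcases x.sp t pp P3 tk with y | ⟨q, rfl, a, b, y⟩ | y
    · exact .inl y
    · rcases x.nt a b tk y.2 with z | z
      · exact .inr (.inl ⟨q, z, .inr (.inl rfl)⟩)
      · exact .inr (.inr ⟨z.1, q, ⟨a, pp, z.2, tk, y⟩, .inr rfl⟩)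
    · rcases x.nt pp P3 y.2.1 y.2.2.1 with z | z
      · exact .inr (.inl ⟨t, z, .inl rfl⟩)
      · exact .inr (.inr ⟨z.1, t, ⟨pp, y.1, z.2, y.2.1, y.2.2.2, y.2.2.1⟩, .inl rfl⟩)
  · rcases x.mid P pp P3 tk with y | y
    · exact .inl y.2
    · exact .inr (.inl ⟨P, y, .inr (.inr rfl)⟩)

theorem X.val2 (x : X c k ρ) : (c ≤ 1 ∧ ρ 2 = 2) ∨ (∃ Q, TT c k ρ Q ∧ ρ (2 * Q) = 2) ∨
    (c = 2 ∧ ρ (k + 1) = 2) := by
  have ⟨h, H, _, hc, hk, _⟩ := x
  obtain ⟨t, t1, t2, e⟩ := h.surj (v := 2) (by omega) (by omega)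
  have a2 := H 2 (by omega) (by omega)
  have d := (a2 t t1 t2).1 (e ▸ dvd_rfl)
  by_cases l : k < t
  · obtain rfl : c = 2 := by have := h.ext_dvd a2 (by omega) (by omega) l t2 d; omega
    have := x.two.1
    obtain rfl : t = k + 1 := by omega
    exact .inr (.inr ⟨rfl, e⟩)
  by_cases t3 : 3 ≤ t
  swap
  · obtain rfl : t = 2 := by omega
    exact .inl ⟨by omega, e⟩
  rcases x.desc t3 (by omega) with y | ⟨Q, y, z⟩ | ⟨-, q, y, z⟩
  · omega
  · have := pm y.1 (by have := y.2.1; omega)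
    obtain rfl : t = 2 * Q := by omega
    exact .inr (.inl ⟨Q, y, e⟩)
  · have := pm y.1 (by have := y.2.2.1; omega)
    omega

theorem X.val1 (x : X c k ρ) (c1 : 1 ≤ c) : ρ (c + k) = 1 := by
  have ⟨h, H, _, hc, hk, _⟩ := x
  refine (h.ends H hc hk).resolve_left fun e => ?_
  have := (H (c + 1) (by omega) (by omega) (c + 1) (by omega) (by omega)).2 dvd_rfl
  rw [e] at this
  have := Nat.le_of_dvd one_pos this
  omega

theorem X.tt (x : X c k ρ) {Q : ℕ} (y : TT c k ρ Q) : ρ Q = Q + 2 ∧ ρ (2 * Q) = 2 := by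
  have ⟨h, H, _, hc, hk, _⟩ := x
  obtain ⟨a, b, d, e, f, g, i, j⟩ := y
  constructor
  · rcases x.sp Q a b (by omega) with z | ⟨q, rfl, -, _, z, -⟩ | z
    · have := h.inj Q (Q + 2) (by omega) (by omega) (by omega) (by omega) (z.trans j.symm); omega
    · have := h.inj q (q + 2 + 2) (by omega) (by omega) (by omega) (by omega) (z.trans j.symm); omega
    · exact z.2.2.2
  · rcases x.val2 with z | ⟨R, z, u⟩ | z
    · omega
    · have := z.2.2.2.2.2.2.1
      obtain rfl : R = Q := by omega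
      exact u
    · omega

end Pool.Agent.H.MP_537c9d_co
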