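import Pool.Agent.H.MP_537c9d_co.F

namespace Pool.Agent.H.MP_537c9d_co

variable {c k : ℕ} {ρ : ℕ → ℕ}

theorem map_self {s n : ℕ} {f : ℕ → ℕ} (h : ∀ t, s ≤ t → t < s + n → f t = t) :
    (List.range' s n).map f = List.range' s n := by
  conv_rhs => rw [← List.map_id (List.range' s n)]
  exact List.map_congr_left fun t ht => by rw [List.mem_range'_1] at ht; exact h t ht.1 ht.2

def g (k t : ℕ) : ℕ := if t = k + 1 then 1 else t
def g2 (k t : ℕ) : ℕ := if t = k + 1 then 2 else if t = k + 2 then 1 else t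

theorem sq0 : sq 0 k (g k) = st1 k := map_self fun t _ _ => if_neg (by omega)

theorem sq1 (hk : 1 ≤ k) : sq 1 k (g k) = st2 k := by
  obtain ⟨n, rfl⟩ := Nat.exists_eq_add_of_le' hk
  rw [sq, List.range'_1_concat, List.map_append,
    map_self fun t _ _ => by unfold g; split_ifs <;> omega]
  have a : g (n + 1) (1 + 1 + n) = 1 := if_pos (by omega)
  simp [st2, a]

theorem sq2 (hk : 2 ≤ k) : sq 2 k (g2 k) = List.range' 3 (k - 2) ++ [2, 1] := by
  obtain ⟨n, rfl⟩ := Nat.exists_eq_add_of_le' hk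
  rw [sq, List.range'_1_concat, List.range'_1_concat, List.map_append, List.map_append,
    map_self fun t _ _ => by unfold g2; split_ifs <;> omega]
  have a : g2 (n + 2) (2 + 1 + n) = 2 := if_pos (by omega)
  have b : g2 (n + 2) (2 + 1 + (n + 1)) = 1 := by unfold g2; split_ifs <;> omega
  simp [a, b]

theorem idx {f : ℕ → ℕ} {t v : ℕ} (t1 : c < t) (t2 : t ≤ c + k) (e : f t = v)
    (u : ∀ s, c < s → s < t → f s ≠ v) : (sq c k f).idxOf v = t - (c + 1) := by
  rw [List.idxOf, List.findIdx_eq (by simp [sq]; omega)]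
  simp only [sq, List.getElem_map, List.getElem_range', one_mul, beq_iff_eq, beq_eq_false_iff_ne]
  exact ⟨by rw [← e]; congr 1; omega, fun j hj => u _ (by omega) (by omega)⟩

theorem tw_ind {p : ℕ} (hp : p.Prime) (hp2 : (p + 2).Prime) (e : k + 1 = 2 * p) (hk : 150 ≤ k)
    (n : ℕ) : ∀ ρ : ℕ → ℕ, (∀ s t, 2 < s → s ≤ 2 + k → 2 < t → t ≤ 2 + k → ρ s = ρ t → s = t) →
    (∀ t, 2 < t → t ≤ 2 + k → ρ t = sw p (p + 2) (g2 k t) ∨
      ∃ q, p < q ∧ TW k ρ q ∧ (t = q ∨ t = q + 2)) →
    ((Finset.Ioc 2 (2 + k)).filter fun t => ρ t ≠ sw p (p + 2) (g2 k t)).card ≤ n →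
      Der k 4 (st4 k p) (sq 2 k ρ) := by
  have s4 : st4 k p = sq 2 k fun t => sw p (p + 2) (g2 k t) := by
    rw [st4, ← sq2 (by omega), exch_sq]
  induction n using Nat.strong_induction_on with
  | _ n ih =>
  intro ρ I D hn
  by_cases x : ∀ t, 2 < t → t ≤ 2 + k → ρ t = sw p (p + 2) (g2 k t)
  · rw [sq_congr x, ← s4]; exact .start
  push Not at x
  obtain ⟨t, t1, t2, x⟩ := x
  obtain ⟨q, pq, ⟨a, b, q2, qk, e1, e2⟩, -⟩ := (D t t1 t2).resolve_left x
  have o1 := pm hp (by omega)
  have o2 := pm hp2 (by omega)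
  have o3 := pm a (by omega)
  have o4 := pm b (by omega)
  have o5 : p % 3 = 2 := by omega
  have o0 : q % 3 = 2 := by omega
  have o6 : p + 4 < q := by omega
  have N : ∀ t, 2 < t → t ≤ 2 + k → t ≠ q → t ≠ q + 2 → sw q (q + 2) (ρ t) = ρ t :=
    fun t t1 t2 u v => by
      rw [sw, if_neg fun z => v (I _ _ t1 t2 (by omega) (by omega) (z.trans e2.symm)),
        if_neg fun z => u (I _ _ t1 t2 (by omega) (by omega) (z.trans e1.symm))]
  have f1 : sw q (q + 2) (ρ q) = q := by rw [e1]; unfold sw; split_ifs <;> omega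
  have f2 : sw q (q + 2) (ρ (q + 2)) = q + 2 := by rw [e2]; exact if_pos rfl
  have g1 : sw p (p + 2) (g2 k q) = q := by unfold sw g2; split_ifs <;> omega
  have g3 : sw p (p + 2) (g2 k (q + 2)) = q + 2 := by unfold sw g2; split_ifs <;> omega
  have I' : ∀ s t, 2 < s → s ≤ 2 + k → 2 < t → t ≤ 2 + k →
      sw q (q + 2) (ρ s) = sw q (q + 2) (ρ t) → s = t := fun s t a b c d x =>
    I s t a b c d (by simpa only [sw_sw] using congrArg (sw q (q + 2)) x)
  have := Der.twin q _ rfl a b qk (by omega) ?_ ?_ (ih _ (lt_of_lt_of_le (Finset.card_lt_card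
    ⟨fun m hm => ?_, fun z => ?_⟩) hn) (fun t => sw q (q + 2) (ρ t)) I' (fun t t1 t2 => ?_) le_rfl)
  · rw [exch_sq] at this
    simpa only [sw_sw] using this
  · rw [s4, idx (t := q) (by omega) (by omega) f1 fun s s1 s2 z => by
      have := I' s q s1 (by omega) (by omega) (by omega) (z.trans f1.symm); omega,
      idx (t := q) (by omega) (by omega) g1 fun s s1 s2 => by unfold sw g2; split_ifs <;> omega]
  · rw [s4, idx (t := q + 2) (by omega) (by omega) f2 fun s s1 s2 z => by
      have := I' s (q + 2) s1 (by omega) (by omega) (by omega) (z.trans f2.symm); omega,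
      idx (t := q + 2) (by omega) (by omega) g3 fun s s1 s2 => by unfold sw g2; split_ifs <;> omega]
  · simp only [Finset.mem_filter, Finset.mem_Ioc] at hm ⊢
    refine ⟨hm.1, ?_⟩
    rw [← N m hm.1.1 hm.1.2 (by rintro rfl; exact hm.2 (f1.trans g1.symm))
      (by rintro rfl; exact hm.2 (f2.trans g3.symm))]
    exact hm.2
  · exact (Finset.mem_filter.1 (z (Finset.mem_filter.2 ⟨Finset.mem_Ioc.2 ⟨by omega, by omega⟩,
      (by rw [e1, g1]; omega : ρ q ≠ _)⟩))).2 (f1.trans g1.symm)
  · by_cases u : t = q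
    · exact .inl (by rw [u, f1, g1])
    by_cases v : t = q + 2
    · exact .inl (by rw [v, f2, g3])
    rcases D t t1 t2 with y | ⟨r, pr, ⟨a', b', r2, rk, h1, h2⟩, y⟩
    · exact .inl (by rw [← y]; exact N t t1 t2 u v)
    · have o7 := pm a' (by omega)
      have o8 := pm b' (by omega)
      have o9 : r % 3 = 2 := by omega
      exact .inr ⟨r, pr, ⟨a', b', r2, rk, (N r (by omega) (by omega) (by omega) (by omega)).trans h1,
        (N (r + 2) (by omega) (by omega) (by omega) (by omega)).trans h2⟩, y⟩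

theorem X.core (x : X c k ρ) : Dv k (sq c k ρ) := by
  have ⟨h, H, _, hc, hk, h1⟩ := x
  rcases hc.eq_or_lt with rfl | c1
  · obtain ⟨o, hp, hq⟩ := x.two
    obtain ⟨a, a1, a2, e, pa, -, aP⟩ := x.pos hp (by omega) (by omega)
    have := h.large (by omega) a1 a2 e
    obtain rfl : a = k / 2 + 1 + 2 := by omega
    have kp : k + 1 = 2 * (k / 2 + 1) := by omega
    generalize k / 2 + 1 = p at *
    have e' : ρ p = p + 2 := by
      rcases x.sp p hp (by omega) (by omega) with z | ⟨q, rfl, -, _, z, -⟩ | z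
      · have := h.inj p (p + 2) (by omega) (by omega) a1 a2 (z.trans e.symm); omega
      · have := h.inj q (q + 2 + 2) (by omega) (by omega) a1 a2 (z.trans e.symm); omega
      · exact z.2.2.2
    have v1 := x.val1 (by omega)
    have v2 : ρ (k + 1) = 2 := by
      rcases x.val2 with z | ⟨R, z, u⟩ | z
      · omega
      · have := z.2.2.2.1; omega
      · exact z.2
    refine ⟨4, _, .s4 p hp pa (by convert hq using 1; omega) kp,
      tw_ind hp pa kp hk _ ρ h.inj (fun t t1 t2 => ?_) le_rfl⟩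
    by_cases u : t = p ∨ t = p + 2 ∨ t = k + 1 ∨ t = 2 + k
    · left
      rcases u with rfl | rfl | rfl | rfl <;> unfold sw g2 <;> split_ifs <;> omega
    rcases x.desc t1 (by omega) with y | ⟨Q, y, -⟩ | ⟨-, q, y, z⟩
    · left; rw [y]; unfold sw g2; split_ifs <;> omega
    · have := y.2.2.2.1; omega
    · have := y.2.2.1
      exact .inr ⟨q, by omega, y, z⟩
  have v1 : ∀ t, c < t → t ≤ c + k → t = 1 ∨ t = k + 1 → ρ t = 1 := by
    rintro t t1 t2 (rfl | rfl)
    · exact h1 (by omega)
    · obtain rfl : c = 1 := by omega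
      rw [add_comm]; exact x.val1 le_rfl
  have hq : c = 1 → (k + 1).Prime := by
    rintro rfl
    have : ¬2 ∣ k + 1 := fun d => by
      have := h.ext_dvd (H 2 (by omega) (by omega)) (by omega) (by omega) (by omega) (by omega) d
      omega
    exact h.ext_prime H (by omega) hk (j := 1) (by omega) (by omega) (by omega) (by omega)
  by_cases y : ∃ p, TT c k ρ p
  · obtain ⟨p, y⟩ := y
    obtain ⟨z1, z2⟩ := x.tt y
    obtain ⟨a, b, d, -, f, i, j, l⟩ := y
    have E : sq c k ρ = exch p (p + 2) (exch 2 (2 * p) (sq c k (g k))) := by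
      rw [exch_sq, exch_sq]
      refine sq_congr fun t t1 t2 => ?_
      by_cases u : t = 1 ∨ t = k + 1
      · rw [v1 t t1 t2 u]; unfold sw g; split_ifs <;> omega
      by_cases v : t = 2 ∨ t = p ∨ t = p + 2 ∨ t = 2 * p
      · rcases v with rfl | rfl | rfl | rfl <;> unfold sw g <;> split_ifs <;> omega
      rcases x.desc (t := t) (by omega) (by omega) with y | ⟨Q, y, _⟩ | y
      · rw [y]; unfold sw g; split_ifs <;> omega
      · have := y.2.2.2.2.2.2.1; omega
      · omega
    rw [E]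
    interval_cases c
    · rw [sq0]; exact ⟨3, _, .s3 p a i (by omega), .start⟩
    · rw [sq1 (by omega)]
      exact ⟨5, _, .s5 p a i (by convert hq rfl using 1; omega) (by omega), .start⟩
  · have E : sq c k ρ = sq c k (g k) := by
      refine sq_congr fun t t1 t2 => ?_
      by_cases u : t = 1 ∨ t = k + 1
      · rw [v1 t t1 t2 u]; unfold g; split_ifs <;> omega
      rw [g, if_neg (by omega)]
      by_cases v : t = 2
      · rcases x.val2 with z | ⟨R, z, -⟩ | z
        · rw [v, z.2]
        · exact absurd ⟨R, z⟩ y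
        · omega
      rcases x.desc (t := t) (by omega) (by omega) with z | ⟨Q, z, _⟩ | z
      · exact z
      · exact absurd ⟨Q, z⟩ y
      · omega
    rw [E]
    interval_cases c
    · rw [sq0]; exact ⟨1, _, .s1, .start⟩
    · rw [sq1 (by omega)]; exact ⟨2, _, .s2 (hq rfl), .start⟩

theorem core (hc : c ≤ 2) (hk : 150 ≤ k) (h : W c k ρ) (H : ALL c k ρ) (S : SM c k ρ) :
    Dv k (sq c k ρ) := by
  by_cases h1 : c = 0 → ρ 1 = 1
  · exact X.core ⟨h, H, S, hc, hk, h1⟩
  push Not at h1
  obtain ⟨rfl, h1⟩ := h1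
  have r := h.rng 1 (by omega) (by omega)
  have d := h.first (by omega)
  obtain ⟨P, pp, P3, e⟩ := (form r.1 r.2).resolve_left fun y =>
    h1 (Nat.dvd_one.1 ((S _ r.1 r.2 y 1 (by omega) (by omega)).1 dvd_rfl))
  have := (H 2 (by omega) (by omega) 1 (by omega) (by omega)).1
  have e : ρ 1 = P := by omega
  rw [zero_add, e] at d
  obtain rfl : k = P := by
    by_contra x
    obtain ⟨j, hj⟩ := d
    have : j < 3 := by nlinarith
    have : k = 2 * P := by interval_cases j <;> omega
    exact h.half H hc hk pp (by omega) P3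
      (h.dvd P 1 _ (by omega) (by omega) (by omega) (by omega) (e ▸ dvd_rfl) (by simp [Nat.ModEq]))
  have a : k ^ (0 + 1) ≤ k := by simp
  have b : k < k ^ (0 + 1) + k ^ 0 := by simp
  have A1 : ∀ m, m ≠ k → Al 0 k ρ m → Al 0 k (fun t => sw (k ^ (0 + 1)) (k ^ 0) (ρ t)) m :=
    fun m z a t t1 t2 => by rw [sw_dvd pp (by simpa using z)]; exact a t t1 t2
  exact Dv.pps pp a b (X.core ⟨h.pps pp a b, fun m u v => A1 m (by omega) (H m u v),
    fun m u v w => A1 m (by rintro rfl; have := w m pp dvd_rfl; omega) (S m u v w), hc, hk,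
    fun _ => by simp [e, sw]⟩)

theorem classify {σ : ℕ → ℕ} (w : W 0 k σ) : Dv k (seq k σ) := by
  by_cases hk : k < 150
  · exact (small hk w).2
  have G : ∀ c ≤ 2, ∀ ρ, W c k ρ → ALL c k ρ → Dv k (sq c k ρ) := fun c hc ρ a b =>
    norm hc (by omega) (fun _ => core hc (by omega)) _ ρ a b le_rfl
  obtain ⟨c, c2, H | H⟩ := align k σ w
  · convert G c c2 _ (w.sh c) H using 1
    refine List.ext_getElem (by simp [seq, sq]) fun i _ _ => ?_
    simp only [seq, sq, List.getElem_map, List.getElem_range']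
    congr 1; omega
  · obtain ⟨n, s, a, b⟩ := G c c2 _ (w.rev c) H
    refine ⟨n, s, a, ?_⟩
    convert Der.rev _ b using 1
    refine List.ext_getElem (by simp [seq, sq]) fun i hi _ => ?_
    simp only [seq, sq, List.getElem_map, List.getElem_range', List.getElem_reverse,
      List.length_map, List.length_range'] at hi ⊢
    congr 1; omega

def IsWCS (k : ℕ) (s : List ℕ) : Prop :=
  s.Perm (List.range' 1 k) ∧ ∀ (m : ℕ) (i j : Fin s.length), m ∣ s[i] →
    (m : ℤ) ∣ ((i : ℕ) : ℤ) - ((j : ℕ) : ℤ) → m ∣ s[j]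

theorem IsWCS.dv {s : List ℕ} (h : IsWCS k s) : Dv k s := by
  have l : s.length = k := by simpa using h.1.length_eq
  have nd : s.Nodup := h.1.nodup_iff.2 (List.nodup_range')
  let ρ : ℕ → ℕ := fun t => s.getD (t - 1) 0
  have e : ∀ t (h : t - 1 < s.length), ρ t = s[t - 1] := fun t h => List.getD_eq_getElem _ _ h
  have w : W 0 k ρ := ⟨fun t a b => ?_, fun u t a b c d x => ?_, fun m u t a b c d x y => ?_⟩
  · convert classify w using 1
    refine List.ext_getElem (by simp [seq, l]) fun i hi _ => ?_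
    simp only [seq, List.getElem_map, List.getElem_range']
    rw [e _ (by omega)]; congr 1; omega
  · have := List.mem_range'_1.1 (h.1.subset (List.getElem_mem (by omega : t - 1 < s.length)))
    rw [e t (by omega)]; omega
  · rw [e u (by omega), e t (by omega), nd.getElem_inj_iff] at x; omega
  · rw [e u (by omega)] at x
    rw [e t (by omega)]
    refine h.2 m ⟨u - 1, by omega⟩ ⟨t - 1, by omega⟩ x ?_
    convert y.symm.dvd using 1
    simp only []; omega

end Pool.Agent.H.MP_537c9d_co
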