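import Pool.Agent.H.MP_537c9d_co.G

namespace Pool.Agent.H.MP_537c9d_co

inductive RD (k n : ℕ) (s₀ : List ℕ) : Finset (ℕ × ℕ) → Bool → List ℕ → Prop
  | start : RD k n s₀ ∅ false s₀
  | twin (q : ℕ) (S : Finset (ℕ × ℕ)) (b : Bool) (s : List ℕ) : n = 4 → q.Prime → (q + 2).Prime →
      q + 2 ≤ k → (k + 1) / 2 < q → s.idxOf q = s₀.idxOf q → s.idxOf (q + 2) = s₀.idxOf (q + 2) →
      (q, q + 2) ∉ S → RD k n s₀ S b s → RD k n s₀ (insert (q, q + 2) S) b (exch q (q + 2) s)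
  | pps (p c : ℕ) (S : Finset (ℕ × ℕ)) (b : Bool) (s : List ℕ) : p.Prime → 1 ≤ c → p ^ c ≤ k →
      k < p ^ c + p ^ (c - 1) → (p ^ (c - 1), p ^ c) ∉ S → RD k n s₀ S b s →
      RD k n s₀ (insert (p ^ (c - 1), p ^ c) S) b (exch (p ^ c) (p ^ (c - 1)) s)
  | rev (S : Finset (ℕ × ℕ)) (s : List ℕ) : RD k n s₀ S false s → RD k n s₀ S true s.reverse

def Valid (k n x y : ℕ) : Prop :=
  (∃ p c : ℕ, p.Prime ∧ x = p ^ c ∧ y = p ^ (c + 1) ∧ y ≤ k ∧ k < y + x) ∨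
    (n = 4 ∧ x.Prime ∧ y.Prime ∧ y = x + 2 ∧ y ≤ k ∧ (k + 1) / 2 < x)

variable {k n : ℕ}

theorem pw2 {p c : ℕ} (hp : p.Prime) : 1 ≤ p ^ c ∧ 2 * p ^ c ≤ p ^ (c + 1) :=
  ⟨Nat.pow_pos hp.pos, by rw [pow_succ']; exact Nat.mul_le_mul_right _ hp.two_le⟩

theorem Valid.rng {x y : ℕ} (h : Valid k n x y) : 1 ≤ x ∧ x < y ∧ y ≤ k := by
  rcases h with ⟨p, c, hp, rfl, rfl, a, b⟩ | h
  · have := pw2 (c := c) hp; omega
  · omega

theorem Valid.disj (hk : 12 ≤ k) (h4 : n = 4 → k % 3 = 0) {x y a b : ℕ} (h : Valid k n x y)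
    (h' : Valid k n a b) (ne : (x, y) ≠ (a, b)) : x ≠ a ∧ x ≠ b ∧ y ≠ a ∧ y ≠ b := by
  have M : ∀ {x y a b}, (∃ p c : ℕ, p.Prime ∧ x = p ^ c ∧ y = p ^ (c + 1) ∧ y ≤ k ∧ k < y + x) →
      (n = 4 ∧ a.Prime ∧ b.Prime ∧ b = a + 2 ∧ b ≤ k ∧ (k + 1) / 2 < a) →
      x ≠ a ∧ x ≠ b ∧ y ≠ a ∧ y ≠ b := by
    rintro _ _ a b ⟨p, c, hp, rfl, rfl, u, v⟩ ⟨h1, h2, h3, h5, h6, h7⟩
    have := pw2 (c := c) hp
    have z : ∀ r, r.Prime → p ^ (c + 1) = r → r = k := fun r hr e => by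
      have := (Nat.Prime.pow_eq_iff hr).1 e
      obtain rfl : c = 0 := by omega
      simp at u v e; omega
    have := h4 h1
    have := pm h3 (by omega)
    exact ⟨by omega, by omega, fun e => by have := z a h2 e; omega,
      fun e => by have := z b h3 e; omega⟩
  rcases h with h | h <;> rcases h' with h' | h'
  · obtain ⟨p, c, hp, rfl, rfl, u, v⟩ := h
    obtain ⟨q, d, hq, rfl, rfl, u', v'⟩ := h'
    have := pw2 (c := c) hp
    have := pw2 (c := d) hq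
    have z : p ^ (c + 1) ≠ q ^ (d + 1) := fun e => by
      obtain ⟨rfl, rfl⟩ := Nat.Prime.pow_inj hp hq e
      exact ne rfl
    refine ⟨fun e => z ?_, by omega, by omega, z⟩
    rcases c with _ | c <;> rcases d with _ | d
    · simp at *; omega
    · have := pw2 (c := d) hq; simp only [pow_zero] at e; omega
    · have := pw2 (c := c) hp; simp only [pow_zero] at e; omega
    · obtain ⟨rfl, rfl⟩ := Nat.Prime.pow_inj hp hq e; rfl
  · exact M h h'
  · have := M h' h; omega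
  · obtain ⟨-, h2, h3, rfl, h6, h7⟩ := h
    obtain ⟨-, g2, g3, rfl, g6, g7⟩ := h'
    have := pm h2 (by omega)
    have := pm h3 (by omega)
    have := pm g2 (by omega)
    have := pm g3 (by omega)
    have : x % 3 = 2 := by omega
    have : a % 3 = 2 := by omega
    have : x ≠ a := by rintro rfl; exact ne rfl
    omega

def Inf (k n : ℕ) (S : Finset (ℕ × ℕ)) (f : ℕ → ℕ) : Prop :=
  (∀ x y, (x, y) ∈ S → Valid k n x y ∧ f x = y ∧ f y = x) ∧
    ∀ x, (∀ y, (x, y) ∉ S ∧ (y, x) ∉ S) → f x = x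

theorem Inf.step (hk : 12 ≤ k) (h4 : n = 4 → k % 3 = 0) {S : Finset (ℕ × ℕ)} {f : ℕ → ℕ}
    (h : Inf k n S f) {a b : ℕ} (v : Valid k n a b) (m : (a, b) ∉ S) :
    Inf k n (insert (a, b) S) fun x => sw a b (f x) := by
  have D : ∀ x y, (x, y) ∈ S → x ≠ a ∧ x ≠ b ∧ y ≠ a ∧ y ≠ b := fun x y z =>
    (h.1 x y z).1.disj hk h4 v fun e => m (e ▸ z)
  refine ⟨fun x y z => ?_, fun x z => ?_⟩
  · rcases Finset.mem_insert.1 z with e | z
    · obtain ⟨rfl, rfl⟩ := Prod.mk.inj e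
      have := v.rng
      have := h.2 x fun u => ⟨fun z => (D _ _ z).1 rfl, fun z => (D _ _ z).2.2.1 rfl⟩
      have := h.2 y fun u => ⟨fun z => (D _ _ z).2.1 rfl, fun z => (D _ _ z).2.2.2 rfl⟩
      refine ⟨v, ?_, ?_⟩ <;> simp only [sw] <;> split_ifs <;> omega
    · have := D x y z
      have u := h.1 x y z
      refine ⟨u.1, ?_, ?_⟩ <;> simp only [sw] <;> split_ifs <;> omega
  · simp only [Finset.mem_insert, Prod.mk.injEq, not_or] at z
    have := h.2 x fun u => ⟨(z u).1.2, (z u).2.2⟩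
    have := (z b).1.1
    have := (z a).2.1
    simp only [sw]; split_ifs <;> omega

theorem sw_comm (a b : ℕ) : exch a b = exch b a := by
  funext s; refine List.map_congr_left fun x _ => ?_; split_ifs <;> omega

theorem RD.inf (hk : 12 ≤ k) (h4 : n = 4 → k % 3 = 0) {s₀ s : List ℕ} {S : Finset (ℕ × ℕ)}
    {b : Bool} (h : RD k n s₀ S b s) :
    ∃ f, Inf k n S f ∧ s = if b then (s₀.map f).reverse else s₀.map f := by
  have E : ∀ (a c : ℕ) (f : ℕ → ℕ) (b : Bool), exch a c (if b then (s₀.map f).reverse else s₀.map f)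
      = if b then (s₀.map fun x => sw a c (f x)).reverse else s₀.map fun x => sw a c (f x) := by
    intro a c f b
    cases b <;> simp [exch, sw, Function.comp_def]
  induction h with
  | start => exact ⟨id, ⟨by simp, by simp⟩, by simp⟩
  | twin q S b s h1 h2 h3 h5 h6 _ _ m _ ih =>
    obtain ⟨f, i, rfl⟩ := ih
    exact ⟨_, i.step hk h4 (.inr ⟨h1, h2, h3, rfl, h5, h6⟩) m, E _ _ _ _⟩
  | pps p c S b s h1 h2 h3 h5 m _ ih =>
    obtain ⟨f, i, rfl⟩ := ih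
    exact ⟨_, i.step hk h4 (.inl ⟨p, c - 1, h1, rfl, by rw [Nat.sub_add_cancel h2], h3, h5⟩) m,
      by rw [sw_comm, E]⟩
  | rev S s _ ih =>
    obtain ⟨f, i, rfl⟩ := ih
    exact ⟨f, i, by simp⟩

theorem Valid.ne (hk : 12 ≤ k) {x y v : ℕ} (h : Valid k n x y)
    (hv : v = 2 ∨ ∃ q, q.Prime ∧ 2 < q ∧ 2 * q ∣ v) : x ≠ v ∧ y ≠ v := by
  have z : ∀ p c q : ℕ, p.Prime → q.Prime → 2 < q → ¬2 * q ∣ p ^ c := fun p c q hp hq l d => by
    have a := (Nat.prime_dvd_prime_iff_eq Nat.prime_two hp).1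
      (Nat.prime_two.dvd_of_dvd_pow ((dvd_mul_right _ _).trans d))
    have b := (Nat.prime_dvd_prime_iff_eq hq hp).1 (hq.dvd_of_dvd_pow ((dvd_mul_left _ _).trans d))
    omega
  rcases h with ⟨p, c, hp, rfl, rfl, a, b⟩ | ⟨-, h2, h3, rfl, h6, h7⟩
  · rcases hv with rfl | ⟨q, hq, l, d⟩
    · have := pw2 (c := c) hp
      refine ⟨fun e => ?_, by omega⟩
      obtain ⟨rfl, rfl⟩ := (Nat.Prime.pow_eq_iff Nat.prime_two).1 e
      omega
    · exact ⟨fun e => z p c q hp hq l (e ▸ d), fun e => z p _ q hp hq l (e ▸ d)⟩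
  · have := pm h2 (by omega)
    have : 2 ∣ v := by rcases hv with rfl | ⟨q, -, -, d⟩; rfl; exact (dvd_mul_right _ _).trans d
    omega

theorem Inf.eq (hk : 12 ≤ k) {S : Finset (ℕ × ℕ)} {f : ℕ → ℕ} (h : Inf k n S f) {v : ℕ}
    (hv : v = 2 ∨ ∃ q, q.Prime ∧ 2 < q ∧ 2 * q ∣ v) (x : ℕ) : f x = v ↔ x = v := by
  by_cases z : ∀ y, (x, y) ∉ S ∧ (y, x) ∉ S
  · rw [h.2 x z]
  · simp only [not_forall, not_and_or, not_not] at z
    obtain ⟨y, z | z⟩ := z <;> have u := h.1 _ _ z <;> have := u.1.ne hk hv <;> omega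

def Sj (c k : ℕ) (G : ℕ → ℕ) : Prop := ∀ x, 1 ≤ x → x ≤ k → ∃ t, c < t ∧ t ≤ c + k ∧ G t = x

theorem Sj.sw {c a b : ℕ} {G : ℕ → ℕ} (h : Sj c k G) (ha : 1 ≤ a ∧ a ≤ k) (hb : 1 ≤ b ∧ b ≤ k) :
    Sj c k fun t => sw a b (G t) := fun x x1 x2 => by
  obtain ⟨t, t1, t2, e⟩ := h (H.MP_537c9d_co.sw a b x) (by unfold H.MP_537c9d_co.sw; split_ifs <;> omega)
    (by unfold H.MP_537c9d_co.sw; split_ifs <;> omega)
  exact ⟨t, t1, t2, by simp only [e, sw_sw]⟩

theorem Start.form (hk : 12 ≤ k) {s₀ : List ℕ} (h : Start k n s₀) : (n = 4 → k % 3 = 0) ∧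
    ∃ c G, s₀ = sq c k G ∧ Sj c k G ∧ (∀ t, G t = 6 ↔ t = 6) ∧ (∀ t, G t = 12 ↔ t = 12) ∧
      (n = 4 ∧ c = 2 ∨ (n = c + 1 ∧ c ≤ 1 ∧ G 2 = 2) ∨
        (n = 2 * c + 3 ∧ c ≤ 1 ∧ ∃ p, p.Prime ∧ 2 < p ∧ G 2 = 2 * p)) := by
  have j0 : Sj 0 k (g k) := fun x _ _ => ⟨x, by omega, by omega, if_neg (by omega)⟩
  have j1 : Sj 1 k (g k) := fun x _ _ => ⟨if x = 1 then k + 1 else x, by split_ifs <;> omega,
    by split_ifs <;> omega, by unfold g; split_ifs <;> omega⟩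
  have j2 : Sj 2 k (g2 k) := fun x _ _ => ⟨if x = 1 then k + 2 else if x = 2 then k + 1 else x,
    by split_ifs <;> omega, by split_ifs <;> omega, by unfold g2; split_ifs <;> omega⟩
  rcases h with _ | h | ⟨p, a, b, e⟩ | ⟨p, a, b, d, e⟩ | ⟨p, a, b, d, e⟩
  · refine ⟨by omega, 0, g k, sq0.symm, j0, fun t => ?_, fun t => ?_, ?_⟩ <;> unfold g <;>
      split_ifs <;> omega
  · refine ⟨by omega, 1, g k, (sq1 (by omega)).symm, j1, fun t => ?_, fun t => ?_, ?_⟩ <;>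
      unfold g <;> split_ifs <;> omega
  · have := pm a (by omega)
    refine ⟨by omega, 0, _, by rw [st3, ← sq0, exch_sq, exch_sq],
      (j0.sw (by omega) (by omega)).sw (by omega) (by omega), fun t => ?_, fun t => ?_,
      .inr (.inr ⟨rfl, by omega, p, a, by omega, ?_⟩)⟩ <;> unfold sw g <;> split_ifs <;> omega
  · have := pm a (by omega)
    have := pm b (by omega)
    have : p % 3 = 2 := by omega
    refine ⟨by omega, 2, _, by rw [st4, ← sq2 (by omega), exch_sq],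
      j2.sw (by omega) (by omega), fun t => ?_, fun t => ?_, .inl ⟨rfl, rfl⟩⟩ <;> unfold sw g2 <;>
      split_ifs <;> omega
  · have := pm a (by omega)
    refine ⟨by omega, 1, _, by rw [st5, ← sq1 (by omega), exch_sq, exch_sq],
      (j1.sw (by omega) (by omega)).sw (by omega) (by omega), fun t => ?_, fun t => ?_,
      .inr (.inr ⟨rfl, by omega, p, a, by omega, ?_⟩)⟩ <;> unfold sw g <;> split_ifs <;> omega

theorem Start.uniq {s s' : List ℕ} (h : Start k n s) (h' : Start k n s') : s = s' := by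
  cases h <;> cases h' <;> congr 1 <;> omega

theorem get_sq (c : ℕ) (G f : ℕ → ℕ) (b : Bool) {t : ℕ} (t1 : c < t) (t2 : t ≤ c + k) :
    (if b then ((sq c k G).map f).reverse else (sq c k G).map f).getD
      (if b then c + k - t else t - (c + 1)) 0 = f (G t) := by
  cases b
  · rw [if_neg (by simp), if_neg (by simp), List.getD_eq_getElem _ _ (by simp [sq]; omega)]
    simp only [sq, List.getElem_map, List.getElem_range']
    congr 2; omega
  · rw [if_pos rfl, if_pos rfl, List.getD_eq_getElem _ _ (by simp [sq]; omega)]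
    simp only [sq, List.getElem_map, List.getElem_range', List.getElem_reverse, List.length_map,
      List.length_range']
    congr 2; omega

theorem unique (hk : 12 ≤ k) {n' : ℕ} {s₀ s₁ s : List ℕ} {S S' : Finset (ℕ × ℕ)} {b b' : Bool}
    (h0 : Start k n s₀) (h1 : Start k n' s₁) (r0 : RD k n s₀ S b s) (r1 : RD k n' s₁ S' b' s) :
    n = n' ∧ s₀ = s₁ ∧ S = S' ∧ b = b' := by
  obtain ⟨a4, c, G, e0, j, a6, a12, a⟩ := h0.form hk
  obtain ⟨b4, c', G', e1, -, b6, b12, a'⟩ := h1.form hk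
  obtain ⟨f, i, e⟩ := r0.inf hk a4
  obtain ⟨f', i', e'⟩ := r1.inf hk b4
  have K : ∀ t u, c < t → t ≤ c + k → c' < u → u ≤ c' + k →
      (if b then c + k - t else t - (c + 1)) = (if b' then c' + k - u else u - (c' + 1)) →
      f (G t) = f' (G' u) := fun t u t1 t2 u1 u2 z => by
    rw [← get_sq c G f b t1 t2, ← get_sq c' G' f' b' u1 u2, z, ← e0, ← e1, ← e, ← e']
  have v6 : (6 : ℕ) = 2 ∨ ∃ q, q.Prime ∧ 2 < q ∧ 2 * q ∣ 6 := .inr ⟨3, by norm_num⟩
  have v12 : (12 : ℕ) = 2 ∨ ∃ q, q.Prime ∧ 2 < q ∧ 2 * q ∣ 12 := .inr ⟨3, by norm_num⟩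
  have c2 : c ≤ 2 := by omega
  have c2' : c' ≤ 2 := by omega
  have P : ∀ v, v = 6 ∨ v = 12 → ∀ u, c' < u → u ≤ c' + k →
      (if b then c + k - v else v - (c + 1)) = (if b' then c' + k - u else u - (c' + 1)) →
      u = v := by
    rintro v (rfl | rfl) u u1 u2 z <;> have := K _ u (by omega) (by omega) u1 u2 z
    · rw [(a6 6).2 rfl, (i.eq hk v6 6).2 rfl] at this
      exact (b6 u).1 ((i'.eq hk v6 _).1 this.symm)
    · rw [(a12 12).2 rfl, (i.eq hk v12 12).2 rfl] at this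
      exact (b12 u).1 ((i'.eq hk v12 _).1 this.symm)
  have Q := fun v h => P v h (if b = b' then v + c' - c else c + c' + k + 1 - v)
  obtain ⟨rfl, rfl⟩ : b = b' ∧ c = c' := by
    have := Q 6 (.inl rfl)
    have := Q 12 (.inr rfl)
    cases b <;> cases b' <;> simp at * <;> omega
  obtain rfl : n = n' := by
    have z := fun h => K 2 2 h (by omega) h (by omega) rfl
    rcases a with a | a | ⟨a1, a2, p, a3, a4, a5⟩ <;> rcases a' with a' | a' | ⟨b1, b2, q, b3, b4, b5⟩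
    any_goals omega
    · have := z (by omega)
      rw [a.2.2, (i.eq hk (.inl rfl) 2).2 rfl, eq_comm, i'.eq hk (.inl rfl)] at this
      omega
    · have := z (by omega)
      rw [a'.2.2, (i'.eq hk (.inl rfl) 2).2 rfl, i.eq hk (.inl rfl)] at this
      omega
  obtain rfl := h0.uniq h1
  have F : ∀ x, 1 ≤ x → x ≤ k → f x = f' x := fun x x1 x2 => by
    obtain ⟨t, t1, t2, rfl⟩ := j x x1 x2
    rw [← get_sq c G f b t1 t2, ← get_sq c G f' b t1 t2, ← e0, ← e, ← e']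
  have T : ∀ {S S' f f'}, Inf k n S f → Inf k n S' f' → (∀ x, 1 ≤ x → x ≤ k → f x = f' x) →
      S ⊆ S' := fun i i' F ⟨x, y⟩ m => by
    have u := i.1 x y m
    have r := u.1.rng
    have := F x (by omega) (by omega)
    by_contra z
    have := i'.2 x fun w => ⟨fun q => by
      have := (i'.1 _ _ q).2.1
      exact z (by convert q; omega), fun q => by
      have := i'.1 _ _ q
      have := this.1.rng
      omega⟩
    omega
  exact ⟨rfl, rfl, (T i i' F).antisymm (T i' i fun x a b => (F x a b).symm), rfl⟩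

end Pool.Agent.H.MP_537c9d_co
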